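import Mathlib

/-!
# Cubes, fillings, normalised cubical chains

`Cb n` is the cube `I ^ n`; `fc i e` is the inclusion of the face `x i = e`, `pr i` forgets the coordinate `i`.
`Fil q X`: every map from the boundary of `I ^ (q + 1)` to `X` extends to `I ^ (q + 1)` (`q = 0`: path connected,
`q = 1`: simply connected, in general `π_q = 0` for all base points).
`Acyc p X`: the homology group `H_(p+1) (X; ℤ)` is zero, computed by normalised cubical singular chains: `Ch n X` are the
integral combinations of cubes, `DCh n X` those of degenerate cubes, `bd` is the boundary.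
-/

set_option autoImplicit false

namespace Pool.H93.HU

open unitInterval
open scoped Topology Topology.Homotopy

/-- The unit cube. -/
abbrev Cb (n : ℕ) : Type := Fin n → I

/-- The face inclusion `x i = e`. -/
def fc {n : ℕ} (i : Fin (n + 1)) (e : I) : C(Cb n, Cb (n + 1)) where
  toFun x := i.insertNth (α := fun _ => I) e x
  continuous_toFun := by
    refine continuous_pi fun j => ?_
    refine i.succAboveCases ?_ (fun k => ?_) j
    · simp only [Fin.insertNth_apply_same]
      exact continuous_const
    · simp only [Fin.insertNth_apply_succAbove]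
      exact continuous_apply k

/-- The projection which forgets the coordinate `i`. -/
def pr {n : ℕ} (i : Fin (n + 1)) : C(Cb (n + 1), Cb n) where
  toFun x := fun j => x (i.succAbove j)
  continuous_toFun := continuous_pi fun _ => continuous_apply _

/-- The boundary of the cube. -/
abbrev Bd (n : ℕ) : Set (Cb n) := Cube.boundary (Fin n)

variable {X : Type} [TopologicalSpace X]

/-- The face `x i = e` of a singular cube. -/
def Fc {n : ℕ} (s : C(Cb (n + 1), X)) (i : Fin (n + 1)) (e : I) : C(Cb n, X) := s.comp (fc i e)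

variable (X) in
/-- Every map from the boundary of `I ^ (q + 1)` to `X` extends to `I ^ (q + 1)`. -/
def Fil (q : ℕ) : Prop :=
  ∀ f : Cb (q + 1) → X, ContinuousOn f (Bd (q + 1)) →
    ∃ g : C(Cb (q + 1), X), ∀ y ∈ Bd (q + 1), g y = f y

/-- A degenerate cube: it does not depend on one of the coordinates. -/
def Deg : ∀ {n : ℕ}, C(Cb n, X) → Prop
  | 0, _ => False
  | n + 1, s => ∃ (i : Fin (n + 1)) (t : C(Cb n, X)), s = t.comp (pr i)

variable (X) in
/-- The cubical chains. -/
noncomputable abbrev Ch (n : ℕ) : Type := C(Cb n, X) →₀ ℤ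

variable (X) in
/-- The degenerate chains. -/
noncomputable def DCh (n : ℕ) : Submodule ℤ (Ch X n) :=
  Submodule.span ℤ {c | ∃ s : C(Cb n, X), Deg s ∧ c = Finsupp.single s 1}

/-- The boundary of a cubical chain. -/
noncomputable def bd {n : ℕ} : Ch X (n + 1) →ₗ[ℤ] Ch X n :=
  Finsupp.linearCombination ℤ fun s => ∑ i : Fin (n + 1), (-1 : ℤ) ^ (i : ℕ) •
    (Finsupp.single (Fc s i 1) (1 : ℤ) - Finsupp.single (Fc s i 0) 1)

variable (X) in
/-- `H_(p+1) (X; ℤ) = 0`. -/
def Acyc (p : ℕ) : Prop :=
  ∀ z : Ch X (p + 1), bd z ∈ DCh X p → ∃ w : Ch X (p + 2), z - bd w ∈ DCh X (p + 1)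

/-- The class of a pointed cube. -/
def cl {q : ℕ} {x₀ : X} (s : C(Cb q, X)) (h : ∀ y ∈ Bd q, s y = x₀) : HomotopyGroup (Fin q) X x₀ :=
  Quotient.mk _ (⟨s, h⟩ : GenLoop (Fin q) X x₀)

/-- The two end points of the interval. -/
def ep (b : Bool) : I := if b then 1 else 0

/-- All faces of the cube `s` are pointed. -/
def FP {q : ℕ} (x₀ : X) (s : C(Cb (q + 1), X)) : Prop :=
  ∀ (i : Fin (q + 1)) (b : Bool), ∀ y ∈ Bd q, Fc s i (ep b) y = x₀

/-- The family `a` is the family of the classes of the faces of a cube. -/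
def EE {q : ℕ} (x₀ : X) (a : Fin (q + 1) → Bool → HomotopyGroup (Fin q) X x₀) : Prop :=
  ∃ (s : C(Cb (q + 1), X)) (h : FP x₀ s), ∀ i b, cl (Fc s i (ep b)) (h i b) = a i b

end Pool.H93.HU
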