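import Pool.Agent.H93.HU.Defs

/-!
# [H93 HU CUB] Faces of cubes

PROOFS (complete). `fc i e x = i.insertNth e x` (`Fin.insertNth_apply_same`, `Fin.insertNth_apply_succAbove`). `fc_pr`: `Fin.insertNth_self_removeNth`
or by `Fin.succAboveCases`. `mem_Bd`: `y i = e` gives `y = fc i e (pr i y)` (`fc_pr`).
`pair`: `j'` with `i.succAbove j' = j` and `i'` with `j.succAbove i' = i` (`Fin.exists_succAbove_eq`); the identities are checked in each
coordinate: the third identity says `i.succAbove (j'.succAbove l) = j.succAbove (i'.succAbove l)` for all `l` (both are strictly monotone in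
`l` with the range the complement of `{i, j}`; or `Fin.succAbove` as numbers, `split_ifs`, `omega`; w.l.o.g. `i < j`, then `i' = i`, `j' = j - 1`).
The last one: `x = pr i (fc i e x) = pr i (fc j d y)` and `y i' = fc j d y (j.succAbove i') = fc i e x i = e`.
`glue`: define `h (w, t) = g i e (pr i w, t)` for the first (any) `(i, e)` with `w i = e`, `e = 0` or `e = 1` (`Classical`), by `hg` this does not depend
on the choice; continuous on the finite union of the closed sets `{w i = e} ×ˢ univ` (`LocallyFinite.continuousOn_iUnion` or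
`ContinuousOn.union_of_isClosed` / `ContinuousOn.piecewise`), on each of which it is `g i e (pr i w, t)`.
-/

set_option autoImplicit false

namespace Pool.H93.HU

open unitInterval

theorem fc_same {n : ℕ} (i : Fin (n + 1)) (e : I) (x : Cb n) : fc i e x i = e :=
  Fin.insertNth_apply_same (α := fun _ => I) i e x

theorem fc_succAbove {n : ℕ} (i : Fin (n + 1)) (e : I) (x : Cb n) (j : Fin n) :
    fc i e x (i.succAbove j) = x j :=
  Fin.insertNth_apply_succAbove (α := fun _ => I) i e x j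

theorem pr_apply {n : ℕ} (i : Fin (n + 1)) (x : Cb (n + 1)) (j : Fin n) :
    pr i x j = x (i.succAbove j) := rfl

private theorem ext_succ {n : ℕ} (i : Fin (n + 1)) {x y : Cb (n + 1)} (h : x i = y i)
    (h' : ∀ j, x (i.succAbove j) = y (i.succAbove j)) : x = y := by
  funext j
  by_cases hj : j = i
  · rw [hj, h]
  · obtain ⟨k, rfl⟩ := Fin.exists_succAbove_eq hj
    exact h' k

theorem pr_fc {n : ℕ} (i : Fin (n + 1)) (e : I) (x : Cb n) : pr i (fc i e x) = x := by
  funext j
  rw [pr_apply, fc_succAbove]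

theorem fc_pr {n : ℕ} (i : Fin (n + 1)) (x : Cb (n + 1)) : fc i (x i) (pr i x) = x := by
  refine ext_succ i (fc_same _ _ _) fun j => ?_
  rw [fc_succAbove, pr_apply]

private theorem mem_Bd' {n : ℕ} {y : Cb n} : y ∈ Bd n ↔ ∃ (i : Fin n) (b : Bool), y i = ep b := by
  constructor
  · rintro ⟨i, h | h⟩
    · exact ⟨i, false, h⟩
    · exact ⟨i, true, h⟩
  · rintro ⟨i, b, h⟩
    cases b
    · exact ⟨i, Or.inl h⟩
    · exact ⟨i, Or.inr h⟩

theorem fc_mem {n : ℕ} (i : Fin (n + 1)) (b : Bool) (x : Cb n) : fc i (ep b) x ∈ Bd (n + 1) :=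
  mem_Bd'.2 ⟨i, b, fc_same _ _ _⟩

theorem fc_mem' {n : ℕ} (i : Fin (n + 1)) (e : I) {x : Cb n} (hx : x ∈ Bd n) :
    fc i e x ∈ Bd (n + 1) := by
  obtain ⟨j, b, h⟩ := mem_Bd'.1 hx
  exact mem_Bd'.2 ⟨i.succAbove j, b, by rw [fc_succAbove, h]⟩

theorem mem_Bd {n : ℕ} {y : Cb (n + 1)} :
    y ∈ Bd (n + 1) ↔ ∃ (i : Fin (n + 1)) (b : Bool) (x : Cb n), y = fc i (ep b) x := by
  rw [mem_Bd']
  constructor
  · rintro ⟨i, b, h⟩
    exact ⟨i, b, pr i y, by rw [← h, fc_pr]⟩
  · rintro ⟨i, b, x, rfl⟩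
    exact ⟨i, b, fc_same _ _ _⟩

theorem pair {n : ℕ} (i j : Fin (n + 2)) (h : i ≠ j) : ∃ i' j' : Fin (n + 1),
    (∀ (e d : I) (z : Cb n), fc i e (fc j' d z) = fc j d (fc i' e z)) ∧
    (∀ (d : I) (y : Cb (n + 1)), pr i (fc j d y) = fc j' d (pr i' y)) ∧
    (∀ (e : I) (y : Cb (n + 1)), pr j (fc i e y) = fc i' e (pr j' y)) ∧
    (∀ y : Cb (n + 2), pr j' (pr i y) = pr i' (pr j y)) ∧
    (∀ (e d : I) (x y : Cb (n + 1)), fc i e x = fc j d y →
      x = fc j' d (pr i' y) ∧ y = fc i' e (pr i' y)) := by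
  obtain ⟨j', rfl⟩ := Fin.exists_succAbove_eq h.symm
  obtain ⟨i', hi'⟩ : ∃ i', i' = j'.predAbove i := ⟨_, rfl⟩
  have h1 : (i.succAbove j').succAbove i' = i := by
    rw [hi']
    exact Fin.succAbove_succAbove_predAbove i j'
  have h2 : ∀ l : Fin n, (i.succAbove j').succAbove (i'.succAbove l) =
      i.succAbove (j'.succAbove l) := by
    intro l
    rw [hi']
    exact Fin.succAbove_succAbove_succAbove_predAbove i j' l
  have hk : ∀ (d : I) (y : Cb (n + 1)), fc (i.succAbove j') d y i = y i' := by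
    intro d y
    have := fc_succAbove (i.succAbove j') d y i'
    rwa [h1] at this
  have a1 : ∀ (e d : I) (z : Cb n), fc i e (fc j' d z) = fc (i.succAbove j') d (fc i' e z) := by
    intro e d z
    refine ext_succ i ?_ fun m => ?_
    · rw [fc_same, hk, fc_same]
    · rw [fc_succAbove]
      by_cases hm : m = j'
      · rw [hm, fc_same, fc_same]
      · obtain ⟨l, rfl⟩ := Fin.exists_succAbove_eq hm
        rw [fc_succAbove, ← h2, fc_succAbove, fc_succAbove]
  have a2 : ∀ (d : I) (y : Cb (n + 1)), pr i (fc (i.succAbove j') d y) = fc j' d (pr i' y) := by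
    intro d y
    refine ext_succ j' ?_ fun l => ?_
    · rw [pr_apply, fc_same, fc_same]
    · rw [pr_apply, ← h2, fc_succAbove, fc_succAbove, pr_apply]
  refine ⟨i', j', a1, a2, ?_, ?_, ?_⟩
  · intro e y
    refine ext_succ i' ?_ fun l => ?_
    · rw [pr_apply, h1, fc_same, fc_same]
    · rw [pr_apply, h2, fc_succAbove, fc_succAbove, pr_apply]
  · intro y
    funext l
    rw [pr_apply, pr_apply, pr_apply, pr_apply, h2]
  · intro e d x y hxy
    have hx : x = fc j' d (pr i' y) := by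
      rw [← a2, ← hxy, pr_fc]
    have hy : y i' = e := by
      rw [← hk d y, ← hxy, fc_same]
    refine ⟨hx, ?_⟩
    rw [← hy, fc_pr]

theorem glue {X T : Type} [TopologicalSpace X] [TopologicalSpace T] {n : ℕ}
    (g : Fin (n + 1) → Bool → C(Cb n × T, X))
    (hg : ∀ (i j : Fin (n + 1)) (b c : Bool) (x y : Cb n) (t : T),
      fc i (ep b) x = fc j (ep c) y → g i b (x, t) = g j c (y, t)) :
    ∃ h : Cb (n + 1) × T → X, ContinuousOn h (Bd (n + 1) ×ˢ Set.univ) ∧
      ∀ (i : Fin (n + 1)) (b : Bool) (x : Cb n) (t : T), h (fc i (ep b) x, t) = g i b (x, t) := by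
  classical
  obtain ⟨h, hh⟩ : ∃ h : Cb (n + 1) × T → X, h = fun w =>
      if H : ∃ (i : Fin (n + 1)) (b : Bool), w.1 i = ep b then
        g H.choose H.choose_spec.choose (pr H.choose w.1, w.2)
      else g 0 true (pr 0 w.1, w.2) := ⟨_, rfl⟩
  have key : ∀ (i : Fin (n + 1)) (b : Bool) (w : Cb (n + 1) × T), w.1 i = ep b →
      h w = g i b (pr i w.1, w.2) := by
    intro i b w hw
    have H : ∃ (i : Fin (n + 1)) (b : Bool), w.1 i = ep b := ⟨i, b, hw⟩
    rw [hh]
    simp only
    rw [dif_pos H]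
    apply hg
    rw [← H.choose_spec.choose_spec, fc_pr, ← hw, fc_pr]
  refine ⟨h, ?_, ?_⟩
  · have hcov : (Bd (n + 1) ×ˢ Set.univ : Set (Cb (n + 1) × T)) =
        ⋃ p : Fin (n + 1) × Bool, {w | w.1 p.1 = ep p.2} := by
      ext w
      rw [Set.mem_prod, Set.mem_iUnion]
      constructor
      · rintro ⟨h1, -⟩
        obtain ⟨i, b, h2⟩ := mem_Bd'.1 h1
        exact ⟨(i, b), h2⟩
      · rintro ⟨⟨i, b⟩, h2⟩
        exact ⟨mem_Bd'.2 ⟨i, b, h2⟩, Set.mem_univ _⟩
    rw [hcov]
    refine (locallyFinite_of_finite _).continuousOn_iUnion (fun p => ?_) (fun p => ?_)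
    · exact isClosed_eq ((continuous_apply p.1).comp continuous_fst) continuous_const
    · have hc : Continuous fun w : Cb (n + 1) × T => g p.1 p.2 (pr p.1 w.1, w.2) :=
        (g p.1 p.2).continuous.comp (((pr p.1).continuous.comp continuous_fst).prodMk
          continuous_snd)
      exact hc.continuousOn.congr fun w hw => key p.1 p.2 w hw
  · intro i b x t
    rw [key i b (fc i (ep b) x, t) (fc_same _ _ _), pr_fc]

end Pool.H93.HU
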