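import Pool.Agent.H93.HU.Cub

/-!
# [H93 HU RET] The retraction of `I ^ n × I` and homotopy extension

PROOFS (complete). `ret`: radial projection from the point `(1/2, …, 1/2; 2)`: for `(y, t)` put `M = max ((2 - t) / 2) (sup_i |2 y_i - 1|)` (a continuous function,
`1 / 2 ≤ M ≤ 1`; for `n = 0` the sup is `0`), `r (y, t) = (1/2 + (y_i - 1/2) / M, 2 - (2 - t) / M)`. It lies in `I ^ n × I`; its last coordinate
is `0` if `M = (2 - t) / 2`, otherwise some `|2 y_i - 1| = M` and the new `y_i` is `0` or `1`. `r = id` if `t = 0` (`M = 1`) or `y` in the boundary (`M = 1`).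
`hep`: the function `(y, t) ↦ f y` on `t = 0`, `h (y, t)` on the boundary is continuous on the closed set `{t = 0} ∪ Bd n ×ˢ univ`; compose with `r`.
`cyl`: `Cb n × I ≃ₜ Cb (n + 1)` by `Fin.snoc` (last coordinate; `Fin.init`), the boundary is bottom, top and sides; the function which is `b` on the
bottom, `c` on the top, `h` on the sides is continuous on the boundary (three closed sets) and `Fil n X` extends it.
-/

set_option autoImplicit false

namespace Pool.H93.HU

open unitInterval

variable {X : Type} [TopologicalSpace X]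

private theorem isClosed_Bd (n : ℕ) : IsClosed (Bd n) := by
  have h : Bd n = ⋃ i : Fin n, ({y : Cb n | y i = 0} ∪ {y : Cb n | y i = 1}) := by
    ext y
    simp [Cube.boundary]
  rw [h]
  refine isClosed_iUnion_of_finite fun i => IsClosed.union ?_ ?_
  · exact isClosed_eq (continuous_apply i) continuous_const
  · exact isClosed_eq (continuous_apply i) continuous_const

/-- The function `2 y - 1`. -/
private def vf {n : ℕ} (y : Cb n) : Fin n → ℝ := fun i => 2 * (y i : ℝ) - 1

private theorem continuous_vf (n : ℕ) : Continuous (vf (n := n)) := by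
  unfold vf
  fun_prop

private theorem vf_norm_le {n : ℕ} (y : Cb n) : ‖vf y‖ ≤ 1 := by
  rw [pi_norm_le_iff_of_nonneg zero_le_one]
  intro i
  rw [Real.norm_eq_abs, abs_le]
  have h0 := (y i).2.1
  have h1 := (y i).2.2
  unfold vf
  constructor <;> linarith

/-- The factor. -/
private noncomputable def MM {n : ℕ} (z : Cb n × I) : ℝ := max ((2 - (z.2 : ℝ)) / 2) ‖vf z.1‖

private theorem continuous_MM (n : ℕ) : Continuous (MM (n := n)) := by
  unfold MM
  have := continuous_vf n
  fun_prop

private theorem MM_ge {n : ℕ} (z : Cb n × I) : 1 / 2 ≤ MM z := by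
  have h1 := z.2.2.2
  refine le_trans ?_ (le_max_left _ _)
  linarith

private theorem MM_le {n : ℕ} (z : Cb n × I) : MM z ≤ 1 := by
  have h0 := z.2.2.1
  refine max_le (by linarith) (vf_norm_le z.1)

private theorem MM_pos {n : ℕ} (z : Cb n × I) : 0 < MM z := by
  have := MM_ge z
  linarith

private theorem abs_le_MM {n : ℕ} (z : Cb n × I) (i : Fin n) : |2 * (z.1 i : ℝ) - 1| ≤ MM z := by
  refine le_trans ?_ (le_max_right _ _)
  have := norm_le_pi_norm (vf z.1) i
  rwa [Real.norm_eq_abs] at this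

private theorem mem1 {n : ℕ} (z : Cb n × I) (i : Fin n) :
    1 / 2 + ((z.1 i : ℝ) - 1 / 2) / MM z ∈ I := by
  have h := abs_le_MM z i
  have hp := MM_pos z
  rw [abs_le] at h
  have h1 : ((z.1 i : ℝ) - 1 / 2) / MM z ≤ 1 / 2 := by
    rw [div_le_iff₀ hp]
    linarith [h.2]
  have h2 : -(1 / 2) ≤ ((z.1 i : ℝ) - 1 / 2) / MM z := by
    rw [le_div_iff₀ hp]
    linarith [h.1]
  constructor <;> linarith

private theorem mem2 {n : ℕ} (z : Cb n × I) : 2 - (2 - (z.2 : ℝ)) / MM z ∈ I := by
  have hp := MM_pos z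
  have h1 : (2 - (z.2 : ℝ)) / MM z ≤ 2 := by
    rw [div_le_iff₀ hp]
    have : (2 - (z.2 : ℝ)) / 2 ≤ MM z := le_max_left _ _
    linarith
  have h2 : 1 ≤ (2 - (z.2 : ℝ)) / MM z := by
    rw [le_div_iff₀ hp]
    have := MM_le z
    have := z.2.2.2
    linarith
  constructor <;> linarith

/-- The retraction. -/
private noncomputable def rr (n : ℕ) : C(Cb n × I, Cb n × I) where
  toFun z := (fun i => ⟨_, mem1 z i⟩, ⟨_, mem2 z⟩)
  continuous_toFun := by
    have hM := continuous_MM n
    have hne : ∀ z : Cb n × I, MM z ≠ 0 := fun z => (MM_pos z).ne'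
    refine Continuous.prodMk (continuous_pi fun i => Continuous.subtype_mk ?_ _)
      (Continuous.subtype_mk ?_ _)
    · exact Continuous.add continuous_const (Continuous.div (by fun_prop) hM hne)
    · exact Continuous.sub continuous_const (Continuous.div (by fun_prop) hM hne)

private theorem rr_of_one {n : ℕ} (z : Cb n × I) (h : MM z = 1) : rr n z = z := by
  refine Prod.ext (funext fun i => Subtype.ext ?_) (Subtype.ext ?_)
  · change 1 / 2 + ((z.1 i : ℝ) - 1 / 2) / MM z = (z.1 i : ℝ)
    rw [h]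
    ring
  · change 2 - (2 - (z.2 : ℝ)) / MM z = (z.2 : ℝ)
    rw [h]
    ring

theorem ret (n : ℕ) : ∃ r : C(Cb n × I, Cb n × I),
    (∀ z, (r z).2 = 0 ∨ (r z).1 ∈ Bd n) ∧ ∀ z : Cb n × I, z.2 = 0 ∨ z.1 ∈ Bd n → r z = z := by
  refine ⟨rr n, fun z => ?_, fun z hz => rr_of_one z ?_⟩
  · have hp := MM_pos z
    by_cases h : MM z = (2 - (z.2 : ℝ)) / 2
    · left
      refine Subtype.ext ?_
      change 2 - (2 - (z.2 : ℝ)) / MM z = 0
      have h2 : (2 - (z.2 : ℝ)) = 2 * MM z := by linarith
      rw [h2, mul_div_assoc, div_self hp.ne']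
      ring
    · right
      have h1 : MM z = ‖vf z.1‖ := by
        rcases max_choice ((2 - (z.2 : ℝ)) / 2) ‖vf z.1‖ with h' | h'
        · exact absurd h' h
        · exact h'
      have h2 : ∃ i, ¬ |2 * (z.1 i : ℝ) - 1| < MM z := by
        by_contra hcon
        push Not at hcon
        have := (pi_norm_lt_iff hp (x := vf z.1)).2 (fun i => by
          rw [Real.norm_eq_abs]
          exact hcon i)
        linarith
      obtain ⟨i, hi⟩ := h2
      have h3 : |2 * (z.1 i : ℝ) - 1| = MM z := le_antisymm (abs_le_MM z i) (not_lt.1 hi)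
      refine ⟨i, ?_⟩
      rcases abs_eq hp.le |>.1 h3 with h4 | h4
      · right
        refine Subtype.ext ?_
        change 1 / 2 + ((z.1 i : ℝ) - 1 / 2) / MM z = 1
        have h5 : (z.1 i : ℝ) - 1 / 2 = MM z * (1 / 2) := by linarith
        rw [h5, mul_div_assoc, mul_comm, div_mul_cancel₀ _ hp.ne']
        norm_num
      · left
        refine Subtype.ext ?_
        change 1 / 2 + ((z.1 i : ℝ) - 1 / 2) / MM z = 0
        have h5 : (z.1 i : ℝ) - 1 / 2 = MM z * (-(1 / 2)) := by linarith
        rw [h5, mul_div_assoc, mul_comm, div_mul_cancel₀ _ hp.ne']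
        norm_num
  · refine le_antisymm (MM_le z) ?_
    rcases hz with hz | ⟨i, hi⟩
    · refine le_trans ?_ (le_max_left _ _)
      rw [hz]
      norm_num
    · refine le_trans ?_ (abs_le_MM z i)
      rcases hi with hi | hi
      · rw [hi]
        norm_num
      · rw [hi]
        norm_num

theorem hep {n : ℕ} (f : C(Cb n, X)) (h : Cb n × I → X)
    (hc : ContinuousOn h (Bd n ×ˢ Set.univ)) (h0 : ∀ y ∈ Bd n, h (y, 0) = f y) :
    ∃ H : C(Cb n × I, X), (∀ y, H (y, 0) = f y) ∧ ∀ y ∈ Bd n, ∀ t, H (y, t) = h (y, t) := by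
  classical
  obtain ⟨r, hr, hr'⟩ := ret n
  let g : Cb n × I → X := fun z => if z.2 = 0 then f z.1 else h z
  have hcl : IsClosed {z : Cb n × I | z.2 = 0} := isClosed_eq continuous_snd continuous_const
  have hcl2 : IsClosed (Bd n ×ˢ (Set.univ : Set I)) := (isClosed_Bd n).prod isClosed_univ
  have hg1 : ContinuousOn g {z : Cb n × I | z.2 = 0} := by
    refine ContinuousOn.congr (f := fun z : Cb n × I => f z.1)
      (f.continuous.comp continuous_fst).continuousOn ?_
    intro z hz
    have hz' : z.2 = 0 := hz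
    simp only [g]
    rw [if_pos hz']
  have hg2 : ContinuousOn g (Bd n ×ˢ Set.univ) := by
    refine hc.congr ?_
    rintro ⟨y, t⟩ hz
    simp only [g]
    split_ifs with ht
    · rw [ht]
      exact (h0 y hz.1).symm
    · rfl
  have hg : ContinuousOn g ({z : Cb n × I | z.2 = 0} ∪ Bd n ×ˢ Set.univ) :=
    hg1.union_of_isClosed hg2 hcl hcl2
  have hgr : Continuous fun z => g (r z) := by
    rw [← continuousOn_univ]
    refine hg.comp r.continuous.continuousOn ?_
    intro z _
    rcases hr z with h1 | h1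
    · exact Or.inl h1
    · exact Or.inr ⟨h1, trivial⟩
  refine ⟨⟨fun z => g (r z), hgr⟩, fun y => ?_, fun y hy t => ?_⟩
  · change g (r (y, 0)) = f y
    rw [hr' (y, 0) (Or.inl rfl)]
    exact if_pos rfl
  · change g (r (y, t)) = h (y, t)
    rw [hr' (y, t) (Or.inr hy)]
    simp only [g]
    split_ifs with ht
    · rw [ht]
      exact (h0 y hy).symm
    · rfl

theorem cyl {n : ℕ} (hF : Fil X n) (b c : C(Cb n, X)) (h : Cb n × I → X)
    (hc : ContinuousOn h (Bd n ×ˢ Set.univ)) (h0 : ∀ y ∈ Bd n, h (y, 0) = b y)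
    (h1 : ∀ y ∈ Bd n, h (y, 1) = c y) :
    ∃ H : C(Cb n × I, X), (∀ y, H (y, 0) = b y) ∧ (∀ y, H (y, 1) = c y) ∧
      ∀ y ∈ Bd n, ∀ t, H (y, t) = h (y, t) := by
  classical
  let f : Cb (n + 1) → X := fun w =>
    if w (Fin.last n) = 0 then b (Fin.init w) else
      if w (Fin.last n) = 1 then c (Fin.init w) else h (Fin.init w, w (Fin.last n))
  have hinit : Continuous fun w : Cb (n + 1) => (Fin.init w : Cb n) :=
    Continuous.finInit continuous_id
  have hf1 : ContinuousOn f {w : Cb (n + 1) | w (Fin.last n) = 0} := by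
    refine ContinuousOn.congr (f := fun w : Cb (n + 1) => b (Fin.init w))
      (b.continuous.comp hinit).continuousOn ?_
    intro w hw
    have hw' : w (Fin.last n) = 0 := hw
    simp only [f]
    rw [if_pos hw']
  have hf2 : ContinuousOn f {w : Cb (n + 1) | w (Fin.last n) = 1} := by
    refine ContinuousOn.congr (f := fun w : Cb (n + 1) => c (Fin.init w))
      (c.continuous.comp hinit).continuousOn ?_
    intro w hw
    have hw' : w (Fin.last n) = 1 := hw
    have hne : ¬ (w (Fin.last n) = 0) := by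
      rw [hw']
      exact one_ne_zero
    simp only [f]
    rw [if_neg hne, if_pos hw']
  have hcont : Continuous fun w : Cb (n + 1) => ((Fin.init w : Cb n), w (Fin.last n)) :=
    hinit.prodMk (continuous_apply _)
  have hf3 : ContinuousOn f {w : Cb (n + 1) | (Fin.init w : Cb n) ∈ Bd n} := by
    refine ContinuousOn.congr (f := fun w : Cb (n + 1) => h (Fin.init w, w (Fin.last n)))
      (hc.comp hcont.continuousOn ?_) ?_
    · intro w hw
      exact ⟨hw, trivial⟩
    · intro w hw
      simp only [f]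
      split_ifs with h2 h3
      · rw [h2]
        exact (h0 _ hw).symm
      · rw [h3]
        exact (h1 _ hw).symm
      · rfl
  have hc1 : IsClosed {w : Cb (n + 1) | w (Fin.last n) = 0} :=
    isClosed_eq (continuous_apply _) continuous_const
  have hc2 : IsClosed {w : Cb (n + 1) | w (Fin.last n) = 1} :=
    isClosed_eq (continuous_apply _) continuous_const
  have hc3 : IsClosed {w : Cb (n + 1) | (Fin.init w : Cb n) ∈ Bd n} :=
    (isClosed_Bd n).preimage hinit
  have hf : ContinuousOn f (({w : Cb (n + 1) | w (Fin.last n) = 0} ∪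
      {w : Cb (n + 1) | w (Fin.last n) = 1}) ∪ {w : Cb (n + 1) | (Fin.init w : Cb n) ∈ Bd n}) :=
    (hf1.union_of_isClosed hf2 hc1 hc2).union_of_isClosed hf3 (hc1.union hc2) hc3
  obtain ⟨g, hg⟩ := hF f (hf.mono (by
    rintro w ⟨i, hi⟩
    induction i using Fin.lastCases with
    | last =>
      rcases hi with hi | hi
      · exact Or.inl (Or.inl hi)
      · exact Or.inl (Or.inr hi)
    | cast i => exact Or.inr ⟨i, hi⟩))
  have hsn : Continuous fun z : Cb n × I => (Fin.snoc (α := fun _ => I) z.1 z.2 : Cb (n + 1)) :=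
    Continuous.finSnoc continuous_fst continuous_snd
  have hi : ∀ (y : Cb n) (t : I),
      (Fin.init (Fin.snoc (α := fun _ => I) y t : Cb (n + 1)) : Cb n) = y := fun y t =>
    Fin.init_snoc (α := fun _ => I) t y
  have hl : ∀ (y : Cb n) (t : I), (Fin.snoc (α := fun _ => I) y t : Cb (n + 1)) (Fin.last n) = t :=
    fun y t => Fin.snoc_last (α := fun _ => I) t y
  refine ⟨⟨fun z => g (Fin.snoc (α := fun _ => I) z.1 z.2), g.continuous.comp hsn⟩,
    fun y => ?_, fun y => ?_, fun y hy t => ?_⟩
  · change g (Fin.snoc (α := fun _ => I) y 0) = b y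
    rw [hg _ ⟨Fin.last n, Or.inl (hl y 0)⟩]
    simp only [f]
    rw [hl, if_pos rfl, hi]
  · change g (Fin.snoc (α := fun _ => I) y 1) = c y
    rw [hg _ ⟨Fin.last n, Or.inr (hl y 1)⟩]
    simp only [f]
    rw [hl, if_neg one_ne_zero, if_pos rfl, hi]
  · change g (Fin.snoc (α := fun _ => I) y t) = h (y, t)
    have hmem : (Fin.snoc (α := fun _ => I) y t : Cb (n + 1)) ∈ Bd (n + 1) := by
      obtain ⟨i, hi'⟩ := hy
      refine ⟨Fin.castSucc i, ?_⟩
      rw [Fin.snoc_castSucc (α := fun _ => I) t y i]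
      exact hi'
    rw [hg _ hmem]
    simp only [f]
    rw [hl, hi]
    split_ifs with h2 h3
    · rw [h2]
      exact (h0 _ hy).symm
    · rw [h3]
      exact (h1 _ hy).symm
    · rfl

end Pool.H93.HU
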