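import Pool.Agent.H93.HU.Cns
import Pool.Agent.H93.HU.Ret

/-!
# [H93 HU BAS] The systems of homotopies: dimensions 0 and 1

PROOF (complete). `H₀ s`: if `s = const x₀` the constant homotopy; otherwise `cyl` for `n = 0` (`Bd 0` is empty; `Fil X 0`) with `b = s`, `c = const x₀`.
`H₁ s`: if `s = u.comp (pr 0)` (`i : Fin 1` is `0`; `u` is unique by `pr_fc`) put `H₁ s (y, t) = H₀ u (pr 0 y, t)` (faces: `Fc (u.comp (pr 0)) 0 e = u`, `pr_fc`). Otherwise `glue` with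
`g i b = H₀ (Fc s i (ep b))` (if `fc i (ep b) x = fc j (ep c) y` then `i = j` (`Fin 1`), `b = c` by `fc_same`, `x = y`), and `cyl` with `Fil X 1` if `1 < q`, `hep` if `q ≤ 1`
(the hypothesis is `2 ≤ q`, so only the first case).
-/

set_option autoImplicit false

namespace Pool.H93.HU

open unitInterval

variable {X : Type} [TopologicalSpace X]

private theorem ep_inj {b c : Bool} (h : ep b = ep c) : b = c := by
  cases b <;> cases c <;> simp [ep] at h ⊢

private theorem exi₀ (hF0 : Fil X 0) (x₀ : X) (s : C(Cb 0, X)) :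
    ∃ K : C(Cb 0 × I, X), (∀ y, K (y, 0) = s y) ∧ (∀ y, K (y, 1) = x₀) ∧
      (s = ContinuousMap.const _ x₀ → ∀ z, K z = x₀) := by
  by_cases hs : s = ContinuousMap.const _ x₀
  · refine ⟨ContinuousMap.const _ x₀, fun y => ?_, fun y => rfl, fun _ z => rfl⟩
    rw [hs]
    rfl
  · have hB : ∀ y : Cb 0, y ∉ Bd 0 := by
      rintro y ⟨i, -⟩
      exact i.elim0
    obtain ⟨K, h1, h2, -⟩ := cyl hF0 s (ContinuousMap.const _ x₀) (fun _ => x₀)
      continuousOn_const (fun y hy => absurd hy (hB y)) (fun y hy => absurd hy (hB y))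
    exact ⟨K, h1, h2, fun h => absurd h hs⟩

private theorem exi₁ (hF1 : Fil X 1) (x₀ : X) (H₀ : C(Cb 0, X) → C(Cb 0 × I, X))
    (h0 : ∀ s y, H₀ s (y, 0) = s y) (h1 : ∀ s y, H₀ s (y, 1) = x₀) (s : C(Cb 1, X)) :
    ∃ K : C(Cb 1 × I, X), (∀ y, K (y, 0) = s y) ∧ (∀ y, K (y, 1) = x₀) ∧
      (∀ i b y t, K (fc i (ep b) y, t) = H₀ (Fc s i (ep b)) (y, t)) ∧
      ∀ (u : C(Cb 0, X)) i, s = u.comp (pr i) → ∀ y t, K (y, t) = H₀ u (pr i y, t) := by
  by_cases hd : ∃ (u : C(Cb 0, X)) (i : Fin 1), s = u.comp (pr i)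
  · obtain ⟨u, i, rfl⟩ := hd
    have hFc : ∀ (j : Fin 1) (e : I), Fc (u.comp (pr i)) j e = u := by
      intro j e
      obtain rfl : j = i := Subsingleton.elim (α := Fin 1) _ _
      ext y
      change u (pr j (fc j e y)) = u y
      rw [pr_fc]
    refine ⟨(H₀ u).comp ((pr i).prodMap (ContinuousMap.id I)), fun y => ?_, fun y => ?_, ?_, ?_⟩
    · exact h0 u (pr i y)
    · exact h1 u (pr i y)
    · intro j b y t
      rw [hFc]
      obtain rfl : j = i := Subsingleton.elim (α := Fin 1) _ _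
      change H₀ u (pr j (fc j (ep b) y), t) = _
      rw [pr_fc]
    · intro v j hv y t
      obtain rfl : j = i := Subsingleton.elim (α := Fin 1) _ _
      have huv : u = v := by
        ext y
        have h2 := congrArg (fun f : C(Cb 1, X) => f (fc j 0 y)) hv
        change u (pr j (fc j 0 y)) = v (pr j (fc j 0 y)) at h2
        rwa [pr_fc] at h2
      rw [← huv]
      rfl
  · obtain ⟨h, hc, hh⟩ := glue (T := I) (fun (i : Fin 1) b => H₀ (Fc s i (ep b))) (by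
      intro i j b c x y t hxy
      obtain rfl : j = i := Subsingleton.elim (α := Fin 1) _ _
      have hb : b = c := by
        apply ep_inj
        rw [← fc_same j (ep b) x, hxy, fc_same]
      have hx : x = y := Subsingleton.elim _ _
      rw [hb, hx])
    obtain ⟨K, k1, k2, k3⟩ := cyl hF1 s (ContinuousMap.const _ x₀) h hc (by
      intro y hy
      obtain ⟨i, b, x, rfl⟩ := mem_Bd.1 hy
      rw [hh, h0]
      rfl) (by
      intro y hy
      obtain ⟨i, b, x, rfl⟩ := mem_Bd.1 hy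
      rw [hh, h1]
      rfl)
    refine ⟨K, k1, k2, ?_, ?_⟩
    · intro i b y t
      rw [k3 _ (fc_mem i b y), hh]
    · intro u i hu
      exact absurd ⟨u, i, hu⟩ hd

theorem base {q : ℕ} (hq : 2 ≤ q) (hF0 : Fil X 0) (hF1 : Fil X 1) (x₀ : X) :
    ∃ (H₀ : C(Cb 0, X) → C(Cb 0 × I, X)) (H₁ : C(Cb 1, X) → C(Cb 1 × I, X)),
      St q x₀ H₀ ∧ St q x₀ H₁ ∧ Rl H₀ H₁ ∧ ∀ z, H₀ (ContinuousMap.const _ x₀) z = x₀ := by
  choose H₀ a1 a2 a3 using exi₀ hF0 x₀
  choose H₁ b1 b2 b3 b4 using exi₁ hF1 x₀ H₀ a1 a2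
  exact ⟨H₀, H₁, ⟨a1, fun _ => a2⟩, ⟨b1, fun _ => b2⟩,
    ⟨b3, fun s i y t => b4 (s.comp (pr i)) s i rfl y t⟩, a3 _ rfl⟩

end Pool.H93.HU
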