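import Pool.Agent.H93.HU.Ste
import Pool.Agent.H93.HU.Bas

/-!
# [H93 HU SYS] The systems of homotopies

PROOF (complete). By induction on `k ≤ p + 1` (`base`, `step` with `q = p + 2`): there are `H₀` (dimension `k`) and `H₁` (dimension `k + 1`) with `St`, `St`, `Rl` and
`H₀ (const x₀) = const`, `H₁ (const x₀) = const` (`Rl`, second part: the constant cube is `const.comp (pr 0)`). Take `k = p + 1` and one more `step`: `H₀`, `H`, `H'` in dimensions `p + 1`, `p + 2`, `p + 3`.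
* third: `y = fc i (ep b) x` (`mem_Bd`), `H s (y, 1) = H₀ (Fc s i (ep b)) (x, 1) = x₀` since `p + 1 < p + 2`.
* fourth: the same with `t`; `Fc s i (ep b)` is the constant map (`fc_mem`).
* fifth: `Rl H H'`. * sixth: `H (u.comp (pr i)) (y, 1) = H₀ u (pr i y, 1) = x₀`.
-/

set_option autoImplicit false

namespace Pool.H93.HU

open unitInterval

variable {X : Type} [TopologicalSpace X]

private theorem tower {q : ℕ} (hq : 2 ≤ q) (hF : ∀ j < q, Fil X j) (x₀ : X) :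
    ∀ k : ℕ, ∃ (H₀ : C(Cb k, X) → C(Cb k × I, X)) (H₁ : C(Cb (k + 1), X) → C(Cb (k + 1) × I, X)),
      St q x₀ H₀ ∧ St q x₀ H₁ ∧ Rl H₀ H₁ ∧ ∀ z, H₀ (ContinuousMap.const _ x₀) z = x₀ := by
  intro k
  induction k with
  | zero => exact base hq (hF 0 (by omega)) (hF 1 (by omega)) x₀
  | succ k ih =>
    obtain ⟨H₀, H₁, h0, h1, hR, hc⟩ := ih
    obtain ⟨H₂, h2, hR2⟩ := step (fun h => hF _ h) h1 hR
    refine ⟨H₁, H₂, h1, h2, hR2, ?_⟩
    rintro ⟨y, t⟩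
    have h := hR.2 (ContinuousMap.const _ x₀) 0 y t
    rw [hc] at h
    exact h

theorem sys {p : ℕ} (hF : ∀ j < p + 2, Fil X j) (x₀ : X) :
    ∃ (H : C(Cb (p + 2), X) → C(Cb (p + 2) × I, X)) (H' : C(Cb (p + 3), X) → C(Cb (p + 3) × I, X)),
      (∀ s y, H s (y, 0) = s y) ∧ (∀ s y, H' s (y, 0) = s y) ∧
      (∀ s, ∀ y ∈ Bd (p + 2), H s (y, 1) = x₀) ∧
      (∀ s, (∀ y ∈ Bd (p + 2), s y = x₀) → ∀ y ∈ Bd (p + 2), ∀ t, H s (y, t) = x₀) ∧
      (∀ s i b y t, H' s (fc i (ep b) y, t) = H (Fc s i (ep b)) (y, t)) ∧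
      ∀ (u : C(Cb (p + 1), X)) i y, H (u.comp (pr i)) (y, 1) = x₀ := by
  obtain ⟨H₀, H, h0, h, hR, hc⟩ := tower (q := p + 2) (by omega) hF x₀ (p + 1)
  obtain ⟨H', h', hR'⟩ := step (fun hh => hF _ hh) h hR
  refine ⟨H, H', h.1, h'.1, ?_, ?_, hR'.1, ?_⟩
  · intro s y hy
    obtain ⟨i, b, x, rfl⟩ := mem_Bd.1 hy
    rw [hR.1, h0.2 (by omega)]
  · intro s hs y hy t
    obtain ⟨i, b, x, rfl⟩ := mem_Bd.1 hy
    have he : Fc s i (ep b) = ContinuousMap.const _ x₀ := by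
      ext z
      exact hs _ (fc_mem i b z)
    rw [hR.1, he, hc]
  · intro u i y
    rw [hR.2, h0.2 (by omega)]

end Pool.H93.HU
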