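import Pool.Agent.H93.HU.Cls
import Pool.Agent.H93.HU.Ret

/-!
# [H93 HU SPH] From pointed cubes to maps of the boundary

PROOF (complete). Let `f` be continuous on `Bd (q + 2)`, `J` the union of the faces `(i, b) ≠ (last, true)`. By `ret` (and `(y, t) ↦ fc (Fin.last _) t y`) there is a continuous `r : Cb (q + 2) → Cb (q + 2)`
with values in `J`, the identity on `J` (`r x = fc last (r' (pr last x, x last)).2 (..).1`). Let `z : Cb (q + 2)` be any point, `D (x, t) = r ((1 - t) x + t z)` (convex combination in each coordinate), `x₀ = f (r z)`;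
`f ∘ r` is continuous. By `hep` on the top face there is `K : C(Cb (q + 1) × I, X)`, `K (y, 0) = f (fc last 1 y)`, `K (y, t) = f (D (fc last 1 y, t))` for `y` in the boundary. `glue` for
`g i b (x, t) = f (D (fc i (ep b) x, t))` if `(i, b) ≠ (last, true)`, `g last true = K` (agreement: if `fc last 1 x = fc j (ep c) y` with `(j, c) ≠ (last, true)` then `j ≠ last` and `x` is in the boundary: its coordinate `j'` is
`ep c`) gives a homotopy `h` on the boundary from `f` to a map `f'` which is `x₀` on `J`. The top face `K (·, 1)` of `f'` is a pointed cube (on its boundary `K (y, 1) = f (r z)`), so by the hypothesis, `cl_const` and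
`hom_of_cl` there is a homotopy `L` from it to the constant map; `F (x) = L (pr last x, 1 - x last)` is continuous, extends `f'` (on `J`: `x₀`; top: `L (y, 0) = K (y, 1)`).
At last `hep` in dimension `q + 2` with `f := F` and `h (x, 1 - t)`: the end of the homotopy extends `f`.
-/

set_option autoImplicit false

namespace Pool.H93.HU

open unitInterval

variable {X : Type} [TopologicalSpace X]

private theorem bd_closed (n : ℕ) : IsClosed (Bd n) := by
  have h : Bd n = ⋃ i : Fin n, ({y : Cb n | y i = 0} ∪ {y : Cb n | y i = 1}) := by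
    ext y
    simp [Cube.boundary]
  rw [h]
  refine isClosed_iUnion_of_finite fun i => ?_
  exact (isClosed_eq (continuous_apply i) continuous_const).union
    (isClosed_eq (continuous_apply i) continuous_const)

/-- `(y, t) ↦ fc last t y` -/
private noncomputable def mkL (n : ℕ) : C(Cb n × I, Cb (n + 1)) where
  toFun z := fc (Fin.last n) z.2 z.1
  continuous_toFun := by
    refine continuous_pi fun j => ?_
    refine (Fin.last n).succAboveCases ?_ (fun k => ?_) j
    · simp only [fc_same]
      exact continuous_snd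
    · simp only [fc_succAbove]
      exact (continuous_apply k).comp continuous_fst

private theorem mkL_apply (n : ℕ) (y : Cb n) (t : I) : mkL n (y, t) = fc (Fin.last n) t y := rfl

/-- the union of the faces different from the top -/
private def JJ (n : ℕ) : Set (Cb (n + 1)) :=
  {x | x (Fin.last n) = 0 ∨ pr (Fin.last n) x ∈ Bd n}

private theorem jj_closed (n : ℕ) : IsClosed (JJ n) :=
  (isClosed_eq (continuous_apply _) continuous_const).union
    ((bd_closed n).preimage (pr (Fin.last n)).continuous)

private theorem jj_sub (n : ℕ) : JJ n ⊆ Bd (n + 1) := by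
  rintro x (h | h)
  · exact ⟨Fin.last n, Or.inl h⟩
  · obtain ⟨i, hi⟩ := h
    exact ⟨(Fin.last n).succAbove i, hi⟩

private theorem bd_sub (n : ℕ) {x : Cb (n + 1)} (hx : x ∈ Bd (n + 1)) :
    x (Fin.last n) = 1 ∨ x ∈ JJ n := by
  obtain ⟨i, hi⟩ := hx
  revert hi
  refine (Fin.last n).succAboveCases ?_ (fun k => ?_) i
  · rintro (h | h)
    · exact Or.inr (Or.inl h)
    · exact Or.inl h
  · intro h
    exact Or.inr (Or.inr ⟨k, h⟩)

theorem fil_of_cl {q : ℕ}
    (h : ∀ (x₀ : X) (s : C(Cb (q + 1), X)) (hs : ∀ y ∈ Bd (q + 1), s y = x₀), cl s hs = 1) :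
    Fil X (q + 1) := by
  classical
  intro f hf
  set la : Fin (q + 2) := Fin.last (q + 1) with hla
  obtain ⟨r', hr1, hr2⟩ := ret (q + 1)
  -- the retraction
  set sp : C(Cb (q + 2), Cb (q + 1) × I) := ⟨fun x => (pr la x, x la),
    (pr la).continuous.prodMk (continuous_apply la)⟩ with hsp
  set r : C(Cb (q + 2), Cb (q + 2)) := (mkL (q + 1)).comp (r'.comp sp) with hr
  have hrx : ∀ x, r x = fc la (r' (pr la x, x la)).2 (r' (pr la x, x la)).1 := fun x => rfl
  have hrJ : ∀ x, r x ∈ JJ (q + 1) := by
    intro x
    rw [hrx]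
    rcases hr1 (pr la x, x la) with h1 | h1
    · left
      rw [← hla, fc_same, h1]
    · right
      rw [← hla, pr_fc]
      exact h1
  have hrid : ∀ x ∈ JJ (q + 1), r x = x := by
    intro x hx
    rw [hrx, hr2 (pr la x, x la) hx]
    exact fc_pr la x
  -- `f ∘ r`
  have hfr : Continuous fun x => f (r x) :=
    hf.comp_continuous r.continuous fun x => jj_sub _ (hrJ x)
  -- the contraction
  set G : C(Cb (q + 2) × I, X) := ⟨fun p => f (r fun i => σ p.2 * p.1 i), by
    refine hfr.comp ?_
    fun_prop⟩ with hG
  have hGx : ∀ x t, G (x, t) = f (r fun i => σ t * x i) := fun x t => rfl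
  set x₀ : X := f (r fun _ => 0) with hx₀
  have hG0 : ∀ x, G (x, 0) = f (r x) := by
    intro x
    rw [hGx]
    simp
  have hG1 : ∀ x, G (x, 1) = x₀ := by
    intro x
    rw [hGx]
    simp [hx₀]
  -- homotopy on the top face
  set ft : C(Cb (q + 1), X) := ⟨fun y => f (fc la 1 y),
    hf.comp_continuous (fc la 1).continuous fun y => by
      have := fc_mem la true y
      simpa [ep] using this⟩ with hft
  obtain ⟨K, hK0, hKB⟩ := hep ft (fun p => G (fc la 1 p.1, p.2))
    (by
      apply Continuous.continuousOn
      refine G.continuous.comp ?_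
      exact ((fc la 1).continuous.comp continuous_fst).prodMk continuous_snd)
    (by
      intro y hy
      change G (fc la 1 y, 0) = f (fc la 1 y)
      rw [hG0, hrid]
      right
      rw [← hla, pr_fc]
      exact hy)
  -- the end is pointed
  set K1 : C(Cb (q + 1), X) := ⟨fun y => K (y, 1), K.continuous.comp (by fun_prop)⟩ with hK1
  have hK1B : ∀ y ∈ Bd (q + 1), K1 y = x₀ := by
    intro y hy
    change K (y, 1) = x₀
    rw [hKB y hy]
    exact hG1 _
  obtain ⟨L, hL0, hL1, hLB⟩ := hom_of_cl (s := K1) (t := ContinuousMap.const (Cb (q + 1)) x₀)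
    (hs := hK1B) (ht := fun y _ => rfl) ((h x₀ K1 hK1B).trans (cl_const (x₀ := x₀) fun y _ => rfl).symm)
  set F : C(Cb (q + 2), X) := ⟨fun x => L (pr la x, σ (x la)), by
    refine L.continuous.comp ?_
    exact (pr la).continuous.prodMk (continuous_symm.comp (continuous_apply la))⟩ with hF
  have hFx : ∀ x, F x = L (pr la x, σ (x la)) := fun x => rfl
  -- the homotopy on the boundary
  set hh : Cb (q + 2) × I → X := fun p => if p.1 la = 1 then K (pr la p.1, p.2) else G p with hhh
  have hhJ : ∀ x ∈ JJ (q + 1), ∀ t, hh (x, t) = G (x, t) := by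
    intro x hx t
    simp only [hhh]
    split_ifs with h1
    · have hxB : pr la x ∈ Bd (q + 1) := by
        rcases hx with h2 | h2
        · rw [← hla, h1] at h2
          exact absurd h2 one_ne_zero
        · exact h2
      rw [hKB _ hxB]
      change G (fc la 1 (pr la x), t) = G (x, t)
      rw [← h1, fc_pr]
    · rfl
  have hh0 : ∀ x ∈ Bd (q + 2), hh (x, 0) = f x := by
    intro x hx
    rcases bd_sub _ hx with h1 | h1
    · simp only [hhh]
      rw [← hla] at h1
      rw [if_pos h1, hK0]
      change f (fc la 1 (pr la x)) = f x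
      rw [← h1, fc_pr]
    · rw [hhJ x h1, hG0, hrid x h1]
  have hh1 : ∀ x ∈ Bd (q + 2), hh (x, 1) = F x := by
    intro x hx
    rcases bd_sub _ hx with h1 | h1
    · simp only [hhh]
      rw [← hla] at h1
      rw [if_pos h1, hFx, h1, symm_one, hL0]
      rfl
    · rw [hhJ x h1, hG1, hFx]
      rcases h1 with h2 | h2
      · rw [← hla] at h2
        rw [h2, symm_zero, hL1]
        rfl
      · rw [hLB _ h2]
  have hhc : ContinuousOn hh (Bd (q + 2) ×ˢ Set.univ) := by
    have hA : IsClosed {p : Cb (q + 2) × I | p.1 la = 1} :=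
      isClosed_eq ((continuous_apply la).comp continuous_fst) continuous_const
    have hB : IsClosed {p : Cb (q + 2) × I | p.1 ∈ JJ (q + 1)} :=
      (jj_closed _).preimage continuous_fst
    have h1 : ContinuousOn hh {p : Cb (q + 2) × I | p.1 la = 1} := by
      have h2 : ContinuousOn (fun p : Cb (q + 2) × I => K (pr la p.1, p.2))
          {p : Cb (q + 2) × I | p.1 la = 1} :=
        (K.continuous.comp (((pr la).continuous.comp continuous_fst).prodMk
          continuous_snd)).continuousOn
      refine h2.congr fun p hp => ?_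
      simp only [hhh]
      exact if_pos hp
    have h3 : ContinuousOn hh {p : Cb (q + 2) × I | p.1 ∈ JJ (q + 1)} := by
      refine G.continuous.continuousOn.congr fun p hp => ?_
      exact hhJ p.1 hp p.2
    refine (h1.union_of_isClosed h3 hA hB).mono ?_
    rintro ⟨x, t⟩ ⟨hx, -⟩
    rcases bd_sub _ hx with h4 | h4
    · exact Or.inl h4
    · exact Or.inr h4
  obtain ⟨H, hH0, hHB⟩ := hep F (fun p => hh (p.1, σ p.2))
    (by
      refine hhc.comp (Continuous.continuousOn (by fun_prop)) ?_
      rintro ⟨x, t⟩ ⟨hx, -⟩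
      exact ⟨hx, trivial⟩)
    (by
      intro y hy
      change hh (y, σ 0) = F y
      rw [symm_zero, hh1 y hy])
  refine ⟨⟨fun y => H (y, 1), H.continuous.comp (by fun_prop)⟩, fun y hy => ?_⟩
  change H (y, 1) = f y
  rw [hHB y hy]
  change hh (y, σ 1) = f y
  rw [symm_one, hh0 y hy]

end Pool.H93.HU
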