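import Pool.Agent.H93.HU.Cha
import Pool.Agent.H93.HU.Sph

/-!
# The Hurewicz theorem (vanishing form)
-/

set_option autoImplicit false

namespace Pool.H93.HU

variable {X : Type} [TopologicalSpace X]

/-- If `π_j` vanishes for `j < q` and `H_q (X; ℤ) = 0` then `π_q` vanishes, `q = p + 2`. -/
theorem hurewicz {p : ℕ} (hF : ∀ j < p + 2, Fil X j) (hA : Acyc X (p + 1)) : Fil X (p + 2) :=
  fil_of_cl fun x₀ s hs => pi_zero hF hA x₀ s hs

/-- A simply connected space with vanishing homology is weakly contractible. -/
theorem fil_all (h0 : Fil X 0) (h1 : Fil X 1) (hA : ∀ p, Acyc X (p + 1)) (q : ℕ) : Fil X q := by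
  induction q using Nat.strong_induction_on with
  | _ q ih =>
    match q, ih with
    | 0, _ => exact h0
    | 1, _ => exact h1
    | p + 2, ih => exact hurewicz ih (hA p)

end Pool.H93.HU
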