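import Pool.Agent.H93.HU.Cub

/-!
# [H93 HU CLS] Classes of pointed cubes

PROOFS (complete; Mathlib `Mathlib/Topology/Homotopy/HomotopyGroup.lean`). `cl s h = ⟦⟨s, h⟩⟧`. `cl_hom`: `Quotient.sound`, a
`ContinuousMap.HomotopicRel` from `H` (the homotopy has the parameter first: `(r, y) ↦ H (y, r)`; on the boundary it is constant `x₀`, and `s`, `t` are `x₀`
there). `hom_of_cl`: `Quotient.exact` and the same read backwards. `cl_surj`: `Quotient.exists_rep`. `cl_const`: `HomotopyGroup.one_def`.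
`cl_comp`: `cl_hom` with `H (y, r) = s (θ (y, r))`. `cl_mul`: `w` is `GenLoop.transAt i s t` (`HomotopyGroup.mul_spec`; the formula of `transAt`:
`if (y i : ℝ) ≤ 1 / 2 then s (update y i (projIcc (2 * y i))) else t (update y i (projIcc (2 * y i - 1)))`). `cl_inv`: `HomotopyGroup.inv_spec`, `symmAt`.
-/

set_option autoImplicit false

namespace Pool.H93.HU

open unitInterval
open scoped Topology Topology.Homotopy

variable {X : Type} [TopologicalSpace X] {x₀ : X}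

theorem cl_hom {q : ℕ} (s t : C(Cb q, X)) (hs : ∀ y ∈ Bd q, s y = x₀) (ht : ∀ y ∈ Bd q, t y = x₀)
    (H : C(Cb q × I, X)) (h0 : ∀ y, H (y, 0) = s y) (h1 : ∀ y, H (y, 1) = t y)
    (hB : ∀ y ∈ Bd q, ∀ r, H (y, r) = x₀) : cl s hs = cl t ht := by
  refine Quotient.sound ?_
  have hc : Continuous fun p : I × Cb q => H (p.2, p.1) :=
    H.continuous.comp (continuous_snd.prodMk continuous_fst)
  exact ⟨⟨⟨⟨fun p => H (p.2, p.1), hc⟩, fun x => h0 x, fun x => h1 x⟩, fun t x hx => by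
    show H (x, t) = s x
    rw [hB x hx t, hs x hx]⟩⟩

theorem hom_of_cl {q : ℕ} {s t : C(Cb q, X)} {hs : ∀ y ∈ Bd q, s y = x₀}
    {ht : ∀ y ∈ Bd q, t y = x₀} (h : cl s hs = cl t ht) :
    ∃ H : C(Cb q × I, X), (∀ y, H (y, 0) = s y) ∧ (∀ y, H (y, 1) = t y) ∧
      ∀ y ∈ Bd q, ∀ r, H (y, r) = x₀ := by
  have h1 : GenLoop.Homotopic (⟨s, hs⟩ : GenLoop (Fin q) X x₀) ⟨t, ht⟩ := Quotient.exact h
  obtain ⟨F⟩ := h1
  have hc : Continuous fun p : Cb q × I => F (p.2, p.1) :=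
    (map_continuous F).comp (continuous_snd.prodMk continuous_fst)
  refine ⟨⟨fun p => F (p.2, p.1), hc⟩, fun y => ?_, fun y => ?_, fun y hy r => ?_⟩
  · exact F.apply_zero y
  · exact F.apply_one y
  · show F (r, y) = x₀
    rw [F.eq_fst r hy]
    exact hs y hy

theorem cl_surj {q : ℕ} (a : HomotopyGroup (Fin q) X x₀) :
    ∃ (s : C(Cb q, X)) (hs : ∀ y ∈ Bd q, s y = x₀), cl s hs = a := by
  obtain ⟨p, hp⟩ := Quotient.exists_rep a
  exact ⟨p.1, p.2, hp⟩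

theorem cl_const {q : ℕ} (h : ∀ y ∈ Bd (q + 1), ContinuousMap.const (Cb (q + 1)) x₀ y = x₀) :
    cl (ContinuousMap.const (Cb (q + 1)) x₀) h = 1 := rfl

theorem cl_comp {q : ℕ} (s w : C(Cb q, X)) (hs : ∀ y ∈ Bd q, s y = x₀)
    (hw : ∀ y ∈ Bd q, w y = x₀) (θ : C(Cb q × I, Cb q)) (h0 : ∀ y, θ (y, 0) = y)
    (hB : ∀ y ∈ Bd q, ∀ r, θ (y, r) ∈ Bd q) (h : ∀ y, w y = s (θ (y, 1))) :
    cl w hw = cl s hs := by
  refine (cl_hom s w hs hw (s.comp θ) (fun y => ?_) (fun y => ?_) (fun y hy r => ?_)).symm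
  · rw [ContinuousMap.comp_apply, h0]
  · rw [ContinuousMap.comp_apply, h]
  · rw [ContinuousMap.comp_apply]
    exact hs _ (hB y hy r)

theorem cl_mul {q : ℕ} (i : Fin (q + 1)) (s t w : C(Cb (q + 1), X))
    (hs : ∀ y ∈ Bd (q + 1), s y = x₀) (ht : ∀ y ∈ Bd (q + 1), t y = x₀)
    (hw : ∀ y ∈ Bd (q + 1), w y = x₀)
    (h1 : ∀ y, (y i : ℝ) ≤ 1 / 2 →
      w y = s (Function.update y i (Set.projIcc 0 1 zero_le_one (2 * (y i : ℝ)))))
    (h2 : ∀ y, (1 : ℝ) / 2 < y i →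
      w y = t (Function.update y i (Set.projIcc 0 1 zero_le_one (2 * (y i : ℝ) - 1)))) :
    cl w hw = cl t ht * cl s hs := by
  have h3 := HomotopyGroup.mul_spec (i := i) (p := (⟨t, ht⟩ : GenLoop (Fin (q + 1)) X x₀))
    (q := (⟨s, hs⟩ : GenLoop (Fin (q + 1)) X x₀))
  have h4 : (⟨w, hw⟩ : GenLoop (Fin (q + 1)) X x₀) =
      GenLoop.transAt i (⟨s, hs⟩ : GenLoop (Fin (q + 1)) X x₀) ⟨t, ht⟩ := by
    refine GenLoop.ext _ _ fun y => ?_
    show w y = if (y i : ℝ) ≤ 1 / 2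
      then s (Function.update y i <| Set.projIcc 0 1 zero_le_one (2 * y i))
      else t (Function.update y i <| Set.projIcc 0 1 zero_le_one (2 * y i - 1))
    by_cases hy : (y i : ℝ) ≤ 1 / 2
    · rw [if_pos hy, h1 y hy]
    · rw [if_neg hy, h2 y (not_le.1 hy)]
  refine Eq.trans ?_ h3.symm
  show (Quotient.mk _ (⟨w, hw⟩ : GenLoop (Fin (q + 1)) X x₀) : HomotopyGroup (Fin (q + 1)) X x₀) = _
  rw [h4]

theorem cl_inv {q : ℕ} (i : Fin (q + 1)) (s w : C(Cb (q + 1), X))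
    (hs : ∀ y ∈ Bd (q + 1), s y = x₀) (hw : ∀ y ∈ Bd (q + 1), w y = x₀)
    (h : ∀ y, w y = s (Function.update y i (σ (y i)))) : cl w hw = (cl s hs)⁻¹ := by
  have h3 := HomotopyGroup.inv_spec (i := i) (p := (⟨s, hs⟩ : GenLoop (Fin (q + 1)) X x₀))
  have h4 : (⟨w, hw⟩ : GenLoop (Fin (q + 1)) X x₀) =
      GenLoop.symmAt i (⟨s, hs⟩ : GenLoop (Fin (q + 1)) X x₀) := by
    refine GenLoop.ext _ _ fun y => ?_
    show w y = s fun j => if j = i then σ (y i) else y j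
    rw [h]
    congr 1
    funext j
    rw [Function.update_apply]
  refine Eq.trans ?_ h3.symm
  show (Quotient.mk _ (⟨w, hw⟩ : GenLoop (Fin (q + 1)) X x₀) : HomotopyGroup (Fin (q + 1)) X x₀) = _
  rw [h4]

end Pool.H93.HU
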