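import Mathlib

/-!
# [H93 HU ALG] The algebra of the addition theorem

PROOF (complete). `S a = ∑ i, (-1) ^ i • (a i true - a i false)`. A move does not change `S` (`i.castSucc` and `i.succ` have opposite signs), a reflection
changes the sign of `S`. From a move and the reflection in `i.succ` before and after: `E` is closed under adding `-u` at `(i.castSucc, false)` and `u` at
`(i.succ, true)`. So all entries `(j, true)`, `j > 0`, can be cleared (one after the other, for `j` from the last to `1`: only `(j - 1, false)` is changed; state it as: for every `m`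
there is a member with the same `± S` and the entries `(j, true)`, `j > 0`, `j < m`, zero). The entry `(0, true)`: reflection in `0`, then it is `(0, false)` and the move with
`i = 0` and `u = -` this entry clears it, reflection back. Then clear `(0, false), (1, false), …, (n, false)` by the moves. Only `(last, false)` is left and is `0` by `ls`, so
`S = 0`. (An induction which avoids the order: the number of nonzero entries, or the list of all positions except the last.)
-/

set_option autoImplicit false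

namespace Pool.H93.HU

private def SS {A : Type} [AddCommGroup A] {n : ℕ} (a : Fin (n + 2) → Bool → A) : A :=
  ∑ i : Fin (n + 2), (-1 : ℤ) ^ (i : ℕ) • (a i true - a i false)

private def mvf {A : Type} [AddCommGroup A] {n : ℕ} (a : Fin (n + 2) → Bool → A)
    (i : Fin (n + 1)) (u : A) : Fin (n + 2) → Bool → A :=
  fun j b => a j b + if b = false ∧ (j = i.castSucc ∨ j = i.succ) then u else 0

private def rff {A : Type} [AddCommGroup A] {n : ℕ} (a : Fin (n + 2) → Bool → A)
    (k : Fin (n + 2)) : Fin (n + 2) → Bool → A :=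
  fun j b => if j = k then a j (!b) else -a j b

private theorem mvf_apply {A : Type} [AddCommGroup A] {n : ℕ} (a : Fin (n + 2) → Bool → A)
    (i : Fin (n + 1)) (u : A) (j : Fin (n + 2)) (b : Bool) : mvf a i u j b =
      a j b + if b = false ∧ (j = i.castSucc ∨ j = i.succ) then u else 0 := rfl

private theorem rff_apply {A : Type} [AddCommGroup A] {n : ℕ} (a : Fin (n + 2) → Bool → A)
    (k j : Fin (n + 2)) (b : Bool) : rff a k j b = if j = k then a j (!b) else -a j b := rfl

private theorem SS_mv {A : Type} [AddCommGroup A] {n : ℕ} (a : Fin (n + 2) → Bool → A)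
    (i : Fin (n + 1)) (u : A) : SS (mvf a i u) = SS a := by
  unfold SS mvf
  have h1 : ∀ j : Fin (n + 2), (-1 : ℤ) ^ (j : ℕ) •
      ((a j true + if true = false ∧ (j = i.castSucc ∨ j = i.succ) then u else 0) -
        (a j false + if false = false ∧ (j = i.castSucc ∨ j = i.succ) then u else 0)) =
      (-1 : ℤ) ^ (j : ℕ) • (a j true - a j false) -
        ((if j = i.castSucc then (-1 : ℤ) ^ (j : ℕ) • u else 0) +
          (if j = i.succ then (-1 : ℤ) ^ (j : ℕ) • u else 0)) := by
    intro j
    have h2 : ¬ (true = false ∧ (j = i.castSucc ∨ j = i.succ)) := fun h => Bool.noConfusion h.1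
    rw [if_neg h2, add_zero]
    by_cases hc : j = i.castSucc
    · have hs : j ≠ i.succ := by
        rw [hc]
        exact Fin.castSucc_lt_succ.ne
      rw [if_pos ⟨rfl, Or.inl hc⟩, if_pos hc, if_neg hs, add_zero, ← sub_sub, smul_sub]
    · by_cases hs : j = i.succ
      · rw [if_pos ⟨rfl, Or.inr hs⟩, if_neg hc, if_pos hs, zero_add, ← sub_sub, smul_sub]
      · have h3 : ¬ (false = false ∧ (j = i.castSucc ∨ j = i.succ)) := fun h =>
          h.2.elim hc hs
        rw [if_neg h3, if_neg hc, if_neg hs, add_zero, add_zero, sub_zero]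
  rw [Finset.sum_congr rfl fun j _ => h1 j, Finset.sum_sub_distrib, Finset.sum_add_distrib,
    Finset.sum_ite_eq' Finset.univ i.castSucc, Finset.sum_ite_eq' Finset.univ i.succ,
    if_pos (Finset.mem_univ _), if_pos (Finset.mem_univ _)]
  have h4 : (-1 : ℤ) ^ ((i.castSucc : Fin (n + 2)) : ℕ) • u +
      (-1 : ℤ) ^ ((i.succ : Fin (n + 2)) : ℕ) • u = 0 := by
    rw [← add_smul, Fin.val_castSucc, Fin.val_succ, pow_succ]
    have h5 : (-1 : ℤ) ^ (i : ℕ) + (-1) ^ (i : ℕ) * -1 = 0 := by ring
    rw [h5, zero_smul]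
  rw [h4, sub_zero]

private theorem SS_rf {A : Type} [AddCommGroup A] {n : ℕ} (a : Fin (n + 2) → Bool → A)
    (k : Fin (n + 2)) : SS (rff a k) = -SS a := by
  unfold SS
  rw [← Finset.sum_neg_distrib]
  refine Finset.sum_congr rfl fun j _ => ?_
  rw [← smul_neg]
  congr 1
  rw [rff_apply, rff_apply]
  by_cases h : j = k
  · rw [if_pos h, if_pos h]
    show a j false - a j true = _
    rw [neg_sub]
  · rw [if_neg h, if_neg h]
    abel

/-- the move between `(i.castSucc, false)` and `(i.succ, true)` -/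
private theorem mv2 {A : Type} [AddCommGroup A] {n : ℕ} (E : (Fin (n + 2) → Bool → A) → Prop)
    (mv : ∀ (a : Fin (n + 2) → Bool → A) (i : Fin (n + 1)) (u : A), E a →
      E (fun j b => a j b + if b = false ∧ (j = i.castSucc ∨ j = i.succ) then u else 0))
    (rf : ∀ (a : Fin (n + 2) → Bool → A) (k : Fin (n + 2)), E a →
      E (fun j b => if j = k then a j (!b) else -a j b))
    (a : Fin (n + 2) → Bool → A) (ha : E a) (i : Fin (n + 1)) (k l : Fin (n + 2)) (hkl : k ≠ l)
    (hk : k = i.castSucc ∧ l = i.succ ∨ k = i.succ ∧ l = i.castSucc) (w : A) :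
    ∃ a', E a' ∧ SS a' = SS a ∧ ∀ j b, a' j b = a j b + (if j = k ∧ b = true then w else 0) -
      (if j = l ∧ b = false then w else 0) := by
  have e1 : E (rff (mvf (rff a k) i w) k) := rf _ k (mv _ i w (rf a k ha))
  refine ⟨_, e1, ?_, ?_⟩
  · rw [SS_rf, SS_mv, SS_rf, neg_neg]
  · intro j b
    have hor : (j = i.castSucc ∨ j = i.succ) ↔ (j = k ∨ j = l) := by
      rcases hk with ⟨rfl, rfl⟩ | ⟨rfl, rfl⟩
      · exact Iff.rfl
      · exact or_comm
    rw [rff_apply]
    by_cases h : j = k
    · have hl : j ≠ l := fun h' => hkl (h.symm.trans h')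
      have hl' : ¬ (j = l ∧ b = false) := fun h' => hl h'.1
      rw [if_pos h, mvf_apply, rff_apply, if_pos h, Bool.not_not, if_neg hl', sub_zero]
      congr 1
      cases b
      · have h5 : ¬ ((!false) = false ∧ (j = i.castSucc ∨ j = i.succ)) := fun h3 =>
          Bool.noConfusion h3.1
        have h6 : ¬ (j = k ∧ false = true) := fun h3 => Bool.noConfusion h3.2
        rw [if_neg h5, if_neg h6]
      · have h5 : (!true) = false ∧ (j = i.castSucc ∨ j = i.succ) := ⟨rfl, hor.2 (Or.inl h)⟩
        rw [if_pos h5, if_pos ⟨h, rfl⟩]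
    · have hk' : ¬ (j = k ∧ b = true) := fun h' => h h'.1
      rw [if_neg h, mvf_apply, rff_apply, if_neg h, if_neg hk', add_zero]
      by_cases h2 : j = l
      · cases b
        · rw [if_pos ⟨rfl, hor.2 (Or.inr h2)⟩, if_pos ⟨h2, rfl⟩]
          abel
        · rw [if_neg (fun h3 => Bool.noConfusion h3.1), if_neg (fun h3 => Bool.noConfusion h3.2)]
          abel
      · rw [if_neg (fun h3 => (hor.1 h3.2).elim h h2), if_neg (fun h3 => h2 h3.1)]
        abel

theorem alg {A : Type} [AddCommGroup A] {n : ℕ} (E : (Fin (n + 2) → Bool → A) → Prop)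
    (mv : ∀ (a : Fin (n + 2) → Bool → A) (i : Fin (n + 1)) (u : A), E a →
      E (fun j b => a j b + if b = false ∧ (j = i.castSucc ∨ j = i.succ) then u else 0))
    (rf : ∀ (a : Fin (n + 2) → Bool → A) (k : Fin (n + 2)), E a →
      E (fun j b => if j = k then a j (!b) else -a j b))
    (ls : ∀ a : Fin (n + 2) → Bool → A, E a →
      (∀ j b, ¬ (j = Fin.last (n + 1) ∧ b = false) → a j b = 0) → a (Fin.last (n + 1)) false = 0)
    (a : Fin (n + 2) → Bool → A) (ha : E a) :
    ∑ i : Fin (n + 2), (-1 : ℤ) ^ (i : ℕ) • (a i true - a i false) = 0 := by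
  show SS a = 0
  have p1 : ∀ m : ℕ, m ≤ n + 1 → ∃ a', E a' ∧ SS a' = SS a ∧
      ∀ j : Fin (n + 2), 0 < j.1 → j.1 ≤ m → a' j true = 0 := by
    intro m
    induction m with
    | zero => exact fun _ => ⟨a, ha, rfl, fun j h1 h2 => absurd h1 (by omega)⟩
    | succ m ih =>
      intro hm
      obtain ⟨a', h1, h2, h3⟩ := ih (by omega)
      have hne : (⟨m, by omega⟩ : Fin (n + 1)).succ ≠ (⟨m, by omega⟩ : Fin (n + 1)).castSucc :=
        Fin.castSucc_lt_succ.ne'
      obtain ⟨a'', g1, g2, g3⟩ := mv2 E mv rf a' h1 ⟨m, by omega⟩ _ _ hne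
        (Or.inr ⟨rfl, rfl⟩) (-a' (⟨m, by omega⟩ : Fin (n + 1)).succ true)
      refine ⟨a'', g1, g2.trans h2, fun j hj1 hj2 => ?_⟩
      rw [g3]
      have h4 : ¬ (j = (⟨m, by omega⟩ : Fin (n + 1)).castSucc ∧ true = false) := fun h =>
        Bool.noConfusion h.2
      rw [if_neg h4, sub_zero]
      by_cases hj : j = (⟨m, by omega⟩ : Fin (n + 1)).succ
      · rw [if_pos ⟨hj, rfl⟩, hj, add_neg_cancel]
      · rw [if_neg (fun h => hj h.1), add_zero]
        refine h3 j hj1 ?_
        have h5 : j.1 ≠ m + 1 := fun h => hj (Fin.ext h)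
        omega
  obtain ⟨a₁, h1, h2, h3⟩ := p1 (n + 1) le_rfl
  have hne : (0 : Fin (n + 1)).castSucc ≠ (0 : Fin (n + 1)).succ := Fin.castSucc_lt_succ.ne
  obtain ⟨a₂, g1, g2, g3⟩ := mv2 E mv rf a₁ h1 0 _ _ hne (Or.inl ⟨rfl, rfl⟩)
    (-a₁ (0 : Fin (n + 1)).castSucc true)
  have htrue : ∀ j : Fin (n + 2), a₂ j true = 0 := by
    intro j
    rw [g3]
    have h4 : ¬ (j = (0 : Fin (n + 1)).succ ∧ true = false) := fun h => Bool.noConfusion h.2
    rw [if_neg h4, sub_zero]
    by_cases hj : j = (0 : Fin (n + 1)).castSucc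
    · rw [if_pos ⟨hj, rfl⟩, hj, add_neg_cancel]
    · rw [if_neg (fun h => hj h.1), add_zero]
      refine h3 j ?_ (by omega)
      by_contra h5
      apply hj
      apply Fin.ext
      show j.1 = 0
      omega
  have p2 : ∀ m : ℕ, m ≤ n + 1 → ∃ a', E a' ∧ SS a' = SS a ∧ (∀ j, a' j true = 0) ∧
      ∀ j : Fin (n + 2), j.1 < m → a' j false = 0 := by
    intro m
    induction m with
    | zero => exact fun _ => ⟨a₂, g1, g2.trans h2, htrue, fun j h => absurd h (by omega)⟩
    | succ m ih =>
      intro hm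
      obtain ⟨a', f1, f2, f3, f4⟩ := ih (by omega)
      refine ⟨mvf a' ⟨m, by omega⟩ (-a' (⟨m, by omega⟩ : Fin (n + 1)).castSucc false),
        mv a' ⟨m, by omega⟩ (-a' (⟨m, by omega⟩ : Fin (n + 1)).castSucc false) f1,
        (SS_mv _ _ _).trans f2, fun j => ?_, fun j hj => ?_⟩
      · have h4 : ¬ (true = false ∧ (j = (⟨m, by omega⟩ : Fin (n + 1)).castSucc ∨
            j = (⟨m, by omega⟩ : Fin (n + 1)).succ)) := fun h => Bool.noConfusion h.1
        rw [mvf_apply, if_neg h4, add_zero]
        exact f3 j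
      · rw [mvf_apply]
        by_cases hjm : j = (⟨m, by omega⟩ : Fin (n + 1)).castSucc
        · rw [if_pos ⟨rfl, Or.inl hjm⟩, hjm, add_neg_cancel]
        · have h5 : j.1 ≠ m := fun h => hjm (Fin.ext h)
          have h6 : ¬ (j = (⟨m, by omega⟩ : Fin (n + 1)).succ) := by
            intro h
            have h7 := congrArg Fin.val h
            rw [Fin.val_succ] at h7
            simp only at h7
            omega
          rw [if_neg (fun h => h.2.elim hjm h6), add_zero]
          exact f4 j (by omega)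
  obtain ⟨a₃, f1, f2, f3, f4⟩ := p2 (n + 1) le_rfl
  have f5 : ∀ j b, ¬ (j = Fin.last (n + 1) ∧ b = false) → a₃ j b = 0 := by
    intro j b hjb
    cases b
    · refine f4 j ?_
      have h6 : j ≠ Fin.last (n + 1) := fun h => hjb ⟨h, rfl⟩
      exact Fin.val_lt_last h6
    · exact f3 j
  have f6 := ls a₃ f1 f5
  rw [← f2]
  unfold SS
  refine Finset.sum_eq_zero fun j _ => ?_
  have f7 : a₃ j false = 0 := by
    by_cases h : j = Fin.last (n + 1)
    · rw [h]
      exact f6
    · exact f5 j false fun h' => h h'.1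
  rw [f3 j, f7, sub_zero, smul_zero]

end Pool.H93.HU
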