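import Pool.Agent.H93.HU.Cls
import Pool.Agent.H93.HU.Ret

/-!
# [H93 HU LAS] A cube with only one nontrivial face

PROOF (complete). Let `s` be the cube. For every `(j, b)` other than `(last, false)` the face `(j, b)` is homotopic to the constant map
relative to the boundary (`hom_of_cl`, `cl_const`); for `(last, false)` take the constant homotopy `(y, r) ↦ Fc s last 0 y`; these homotopies agree on the common
points of two faces (a common point is in the boundary of both faces, where everything is `x₀`; the same face: equal points), so by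
`glue` and `hep` there is a homotopy of `s` to a cube `s'` all whose faces are constant except `(last, false)`, which is the old one. Then
`H (y, r) = s' (fc last r y)` is a homotopy from the face `(last, 0)` to the constant map (the face `(last, 1)`), `x₀` on the boundary (`fc last r y` is then in a
face `(j, b)` with `j ≠ last`): `cl_hom`, `cl_const`.
-/

set_option autoImplicit false

namespace Pool.H93.HU

open unitInterval

variable {X : Type} [TopologicalSpace X] {x₀ : X}

private theorem las_cont {n : ℕ} (i : Fin (n + 1)) :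
    Continuous fun z : Cb n × I => fc i z.2 z.1 := by
  refine continuous_pi fun j => ?_
  by_cases hj : j = i
  · subst hj
    simp only [fc_same]
    exact continuous_snd
  · obtain ⟨k, rfl⟩ := Fin.exists_succAbove_eq hj
    simp only [fc_succAbove]
    exact (continuous_apply k).comp continuous_fst

theorem EE.last {p : ℕ} {a : Fin (p + 3) → Bool → HomotopyGroup (Fin (p + 2)) X x₀}
    (ha : EE x₀ a) (h : ∀ j b, ¬ (j = Fin.last (p + 2) ∧ b = false) → a j b = 1) :
    a (Fin.last (p + 2)) false = 1 := by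
  classical
  obtain ⟨s, hFP, hs⟩ := ha
  have hcB : ∀ y ∈ Bd (p + 2), ContinuousMap.const (Cb (p + 2)) x₀ y = x₀ := fun y _ => rfl
  have hex : ∀ (j : Fin (p + 3)) (b : Bool), ∃ G : C(Cb (p + 2) × I, X),
      (∀ y, G (y, 0) = Fc s j (ep b) y) ∧ (∀ y ∈ Bd (p + 2), ∀ r, G (y, r) = x₀) ∧
      (¬ (j = Fin.last (p + 2) ∧ b = false) → ∀ y, G (y, 1) = x₀) ∧
      ((j = Fin.last (p + 2) ∧ b = false) → ∀ y r, G (y, r) = Fc s j (ep b) y) := by
    intro j b
    by_cases hj : j = Fin.last (p + 2) ∧ b = false
    · refine ⟨(Fc s j (ep b)).comp ⟨Prod.fst, continuous_fst⟩, fun y => rfl, fun y hy r => ?_,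
        fun h' => absurd hj h', fun _ y r => rfl⟩
      exact hFP j b y hy
    · have h1 : cl (Fc s j (ep b)) (hFP j b) =
          cl (ContinuousMap.const (Cb (p + 2)) x₀) hcB := by
        rw [hs j b, h j b hj, cl_const]
      obtain ⟨G, hG0, hG1, hGB⟩ := hom_of_cl h1
      exact ⟨G, hG0, hGB, fun _ y => hG1 y, fun h' => absurd h' hj⟩
  choose g hg0 hgB hg1 hgl using hex
  have hglue : ∀ (i j : Fin (p + 3)) (b c : Bool) (x y : Cb (p + 2)) (t : I),
      fc i (ep b) x = fc j (ep c) y → g i b (x, t) = g j c (y, t) := by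
    intro i j b c x y t hxy
    by_cases hij : i = j
    · subst hij
      have e1 : ep b = ep c := by
        rw [← fc_same i (ep b) x, hxy, fc_same]
      have e2 : b = c := by
        cases b <;> cases c <;> simp [ep] at e1 ⊢
      have e3 : x = y := by
        rw [← pr_fc i (ep b) x, hxy, pr_fc]
      rw [e2, e3]
    · obtain ⟨i', j', -, -, -, -, h5⟩ := pair i j hij
      obtain ⟨hx, hy⟩ := h5 _ _ x y hxy
      have hxB : x ∈ Bd (p + 2) := by
        rw [hx]
        exact fc_mem _ _ _
      have hyB : y ∈ Bd (p + 2) := by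
        rw [hy]
        exact fc_mem _ _ _
      rw [hgB i b x hxB, hgB j c y hyB]
  obtain ⟨w, hwc, hw⟩ := glue g hglue
  have hw0 : ∀ y ∈ Bd (p + 3), w (y, 0) = s y := by
    intro y hy
    obtain ⟨i, b, x, rfl⟩ := mem_Bd.1 hy
    rw [hw, hg0]
    rfl
  obtain ⟨H, hH0, hHB⟩ := hep s w hwc hw0
  have hHf : ∀ (i : Fin (p + 3)) (b : Bool) (x : Cb (p + 2)),
      H (fc i (ep b) x, 1) = g i b (x, 1) := by
    intro i b x
    rw [hHB _ (fc_mem i b x), hw]
  have hKc : Continuous fun z : Cb (p + 2) × I => H (fc (Fin.last (p + 2)) z.2 z.1, 1) :=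
    H.continuous.comp ((las_cont (Fin.last (p + 2))).prodMk continuous_const)
  have key := cl_hom (Fc s (Fin.last (p + 2)) (ep false)) (ContinuousMap.const (Cb (p + 2)) x₀)
    (hFP (Fin.last (p + 2)) false) hcB ⟨_, hKc⟩ (fun y => ?_) (fun y => ?_) (fun y hy r => ?_)
  · rw [← hs (Fin.last (p + 2)) false, key, cl_const]
  · show H (fc (Fin.last (p + 2)) 0 y, 1) = _
    have h1 := hHf (Fin.last (p + 2)) false y
    rw [hgl _ _ ⟨rfl, rfl⟩] at h1
    exact h1
  · show H (fc (Fin.last (p + 2)) 1 y, 1) = x₀
    have h1 := hHf (Fin.last (p + 2)) true y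
    rw [hg1 _ _ (fun h' => Bool.noConfusion h'.2)] at h1
    exact h1
  · show H (fc (Fin.last (p + 2)) r y, 1) = x₀
    obtain ⟨i, b, x, rfl⟩ := mem_Bd.1 hy
    have e1 : fc (Fin.last (p + 2)) r (fc i (ep b) x) ((Fin.last (p + 2)).succAbove i) = ep b := by
      rw [fc_succAbove, fc_same]
    have e2 := fc_pr ((Fin.last (p + 2)).succAbove i) (fc (Fin.last (p + 2)) r (fc i (ep b) x))
    rw [e1] at e2
    rw [← e2, hHf]
    exact hg1 _ _ (fun h' => Fin.succAbove_ne _ _ h'.1) _

end Pool.H93.HU
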