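import Pool.Agent.H93.HU.Cls

/-!
# [H93 HU REF] Reflection

PROOF (complete). `s' x = s (update x k (σ (x k)))`. The face `(k, b)` of `s'` is the face `(k, !b)` of `s`. For `j ≠ k` the face `(j, b)` of `s'` is
the face `(j, b)` of `s` composed with the reflection of the coordinate `k'`, where `j.succAbove k' = k`: `cl_inv`.
-/

set_option autoImplicit false

namespace Pool.H93.HU

open unitInterval

variable {X : Type} [TopologicalSpace X] {x₀ : X}

private theorem ref_upd_fc {n : ℕ} (i : Fin (n + 1)) (e e' : I) (y : Cb n) :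
    Function.update (fc i e y) i e' = fc i e' y := by
  funext j
  refine i.succAboveCases ?_ (fun l => ?_) j
  · rw [Function.update_self, fc_same]
  · rw [Function.update_of_ne (Fin.succAbove_ne i l), fc_succAbove, fc_succAbove]

private theorem ref_upd_fc_succ {n : ℕ} (i : Fin (n + 1)) (e : I) (l : Fin n) (v : I)
    (y : Cb n) :
    Function.update (fc i e y) (i.succAbove l) v = fc i e (Function.update y l v) := by
  funext j
  refine i.succAboveCases ?_ (fun l' => ?_) j
  · rw [Function.update_of_ne (Fin.succAbove_ne i l).symm, fc_same, fc_same]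
  · rw [fc_succAbove]
    by_cases h : l' = l
    · subst h
      rw [Function.update_self, Function.update_self]
    · rw [Function.update_of_ne (fun hh => h (Fin.succAbove_right_injective hh)),
        Function.update_of_ne h, fc_succAbove]

private theorem ref_symm_ep (b : Bool) : σ (ep b) = ep (!b) := by
  cases b
  · show σ (0 : I) = 1
    exact symm_zero
  · show σ (1 : I) = 0
    exact symm_one

private theorem ref_mem {n : ℕ} {y : Cb n} (hy : y ∈ Bd n) (i : Fin n) :
    Function.update y i (σ (y i)) ∈ Bd n := by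
  obtain ⟨l, hl⟩ := hy
  refine ⟨l, ?_⟩
  by_cases h : l = i
  · subst h
    rw [Function.update_self]
    rcases hl with hl | hl
    · right
      rw [hl, symm_zero]
    · left
      rw [hl, symm_one]
  · rw [Function.update_of_ne h]
    exact hl

private theorem ref_cl_congr {q : ℕ} {s t : C(Cb q, X)} (hs : ∀ y ∈ Bd q, s y = x₀)
    (ht : ∀ y ∈ Bd q, t y = x₀) (h : s = t) : cl s hs = cl t ht := by
  subst h
  rfl

theorem EE.refl {p : ℕ} {a : Fin (p + 3) → Bool → HomotopyGroup (Fin (p + 2)) X x₀}
    (ha : EE x₀ a) (k : Fin (p + 3)) :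
    EE x₀ (fun j b => if j = k then a j (!b) else (a j b)⁻¹) := by
  obtain ⟨s, hs, ha⟩ := ha
  let R : C(Cb (p + 3), Cb (p + 3)) :=
    ⟨fun x => Function.update x k (σ (x k)),
      continuous_id.update k (continuous_symm.comp (continuous_apply k))⟩
  have hk : ∀ b, Fc (s.comp R) k (ep b) = Fc s k (ep (!b)) := by
    intro b
    ext y
    show s (Function.update (fc k (ep b) y) k (σ (fc k (ep b) y k))) = s (fc k (ep (!b)) y)
    rw [fc_same, ref_symm_ep, ref_upd_fc]
  have hj : ∀ (j : Fin (p + 3)) (b : Bool) (k' : Fin (p + 2)), j.succAbove k' = k → ∀ y,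
      Fc (s.comp R) j (ep b) y = Fc s j (ep b) (Function.update y k' (σ (y k'))) := by
    intro j b k' hkk y
    show s (Function.update (fc j (ep b) y) k (σ (fc j (ep b) y k))) =
      s (fc j (ep b) (Function.update y k' (σ (y k'))))
    rw [← hkk, fc_succAbove, ref_upd_fc_succ]
  have hFP : FP x₀ (s.comp R) := by
    intro j b y hy
    by_cases hjk : j = k
    · subst hjk
      rw [hk]
      exact hs j (!b) y hy
    · obtain ⟨k', hk'⟩ := Fin.exists_succAbove_eq (x := k) (y := j) (Ne.symm hjk)
      rw [hj j b k' hk']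
      exact hs j b _ (ref_mem hy k')
  refine ⟨s.comp R, hFP, fun j b => ?_⟩
  show cl (Fc (s.comp R) j (ep b)) (hFP j b) = if j = k then a j (!b) else (a j b)⁻¹
  by_cases hjk : j = k
  · subst hjk
    rw [if_pos rfl, ← ha j (!b)]
    exact ref_cl_congr _ _ (hk b)
  · rw [if_neg hjk, ← ha j b]
    obtain ⟨k', hk'⟩ := Fin.exists_succAbove_eq (x := k) (y := j) (Ne.symm hjk)
    exact cl_inv k' _ _ _ _ (hj j b k' hk')

end Pool.H93.HU
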