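import Pool.Agent.H93.HU.Mov
import Pool.Agent.H93.HU.Ref
import Pool.Agent.H93.HU.Las
import Pool.Agent.H93.HU.Alg

/-!
# [H93 HU HAT] The homotopy addition theorem for cubes

PROOF (complete). `alg` with `A = Additive (HomotopyGroup (Fin (p + 2)) X x₀)`, `n = p + 1` and `E a = EE x₀ (fun i b => (a i b).toMul)`; `EE.move`, `EE.refl`, `EE.last`.
-/

set_option autoImplicit false

namespace Pool.H93.HU

variable {X : Type} [TopologicalSpace X] {x₀ : X}

theorem hat {p : ℕ} {a : Fin (p + 3) → Bool → HomotopyGroup (Fin (p + 2)) X x₀} (ha : EE x₀ a) :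
    ∑ i : Fin (p + 3), (-1 : ℤ) ^ (i : ℕ) •
      (Additive.ofMul (a i true) - Additive.ofMul (a i false)) = 0 := by
  refine alg (A := Additive (HomotopyGroup (Fin (p + 2)) X x₀)) (n := p + 1)
    (fun c => EE x₀ (fun i b => Additive.toMul (c i b))) ?_ ?_ ?_
    (fun i b => Additive.ofMul (a i b)) ha
  · intro c i u hc
    have h := hc.move i (Additive.toMul u)
    have e : (fun (j : Fin (p + 3)) (b : Bool) => Additive.toMul (c j b) *
        if b = false ∧ (j = i.castSucc ∨ j = i.succ) then Additive.toMul u else 1) =
        fun j b => Additive.toMul (c j b +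
          if b = false ∧ (j = i.castSucc ∨ j = i.succ) then u else 0) := by
      funext j b
      split_ifs <;> rfl
    rw [e] at h
    exact h
  · intro c k hc
    have h := hc.refl k
    have e : (fun (j : Fin (p + 3)) (b : Bool) => if j = k then Additive.toMul (c j (!b))
        else (Additive.toMul (c j b))⁻¹) =
        fun j b => Additive.toMul (if j = k then c j (!b) else -c j b) := by
      funext j b
      split_ifs <;> rfl
    rw [e] at h
    exact h
  · intro c hc h
    exact hc.last fun j b hjb => h j b hjb

end Pool.H93.HU
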