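import Pool.Agent.H93.HU.Sys
import Pool.Agent.H93.HU.Hat

/-!
# [H93 HU CHA] The Hurewicz map: pointed cubes are null

PROOF (complete). `H`, `H'` from `sys`. `e s := (H s) (·, 1)` is a pointed cube. `c : Ch X (p + 2) →ₗ[ℤ] Additive (HomotopyGroup (Fin (p + 2)) X x₀)`, `c (single s 1) = Additive.ofMul (cl (e s) _)`
(`Finsupp.linearCombination`; the module structure of the additive commutative group, `HomotopyGroup.commGroup` needs `Nontrivial (Fin (p + 2))`).
* `c` is zero on `DCh X (p + 2)`: `e (u.comp (pr i))` is the constant map, `cl_const` (`Submodule.span_induction`).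
* `c (bd (single s 1)) = 0`: `s' := (H' s) (·, 1)` has the faces `Fc s' i (ep b) = e (Fc s i (ep b))`, so `EE x₀ (fun i b => cl (e (Fc s i (ep b))) _)` and `hat` (`ep true = 1`, `ep false = 0`); so `c (bd w) = 0` for all `w`.
* `c (single s 1) = Additive.ofMul (cl s hs)` for pointed `s`: `cl_hom` with `H s`.
* `bd (single s 1) ∈ DCh X (p + 1)` for pointed `s`: all the faces are constant, so degenerate: `const.comp (pr 0)`.
So `Acyc X (p + 1)` gives `w` with `single s 1 - bd w ∈ DCh X (p + 2)`, hence `c (single s 1) = 0`.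
-/

set_option autoImplicit false

namespace Pool.H93.HU

open unitInterval

variable {X : Type} [TopologicalSpace X]

private theorem bd_single {n : ℕ} (s : C(Cb (n + 1), X)) :
    bd (Finsupp.single s (1 : ℤ)) = ∑ i : Fin (n + 1), (-1 : ℤ) ^ (i : ℕ) •
      (Finsupp.single (Fc s i 1) (1 : ℤ) - Finsupp.single (Fc s i 0) 1) := by
  unfold bd
  rw [Finsupp.linearCombination_single, one_smul]

private theorem bd_pointed {n : ℕ} {x₀ : X} (s : C(Cb (n + 2), X))
    (hs : ∀ y ∈ Bd (n + 2), s y = x₀) : bd (Finsupp.single s (1 : ℤ)) ∈ DCh X (n + 1) := by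
  rw [bd_single]
  have hF : ∀ (i : Fin (n + 2)) (b : Bool),
      Finsupp.single (Fc s i (ep b)) (1 : ℤ) ∈ DCh X (n + 1) := by
    intro i b
    refine Submodule.subset_span ⟨Fc s i (ep b), ⟨0, ContinuousMap.const _ x₀, ?_⟩, rfl⟩
    ext y
    exact hs _ (fc_mem i b y)
  refine Submodule.sum_mem _ fun i _ => Submodule.smul_mem _ _ (Submodule.sub_mem _ ?_ ?_)
  · exact hF i true
  · exact hF i false

theorem pi_zero {p : ℕ} (hF : ∀ j < p + 2, Fil X j) (hA : Acyc X (p + 1)) (x₀ : X)
    (s : C(Cb (p + 2), X)) (hs : ∀ y ∈ Bd (p + 2), s y = x₀) : cl s hs = 1 := by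
  obtain ⟨H, H', h1, h2, h3, h4, h5, h6⟩ := sys hF x₀
  obtain ⟨e, he⟩ : ∃ e : C(Cb (p + 2), X) → C(Cb (p + 2), X), ∀ s y, e s y = H s (y, 1) :=
    ⟨fun s => (H s).comp ((ContinuousMap.id _).prodMk (ContinuousMap.const _ 1)),
      fun s y => rfl⟩
  have hep : ∀ s, ∀ y ∈ Bd (p + 2), e s y = x₀ := fun s y hy => by
    rw [he]
    exact h3 s y hy
  obtain ⟨c, hc⟩ : ∃ c : Ch X (p + 2) →ₗ[ℤ] Additive (HomotopyGroup (Fin (p + 2)) X x₀),
      ∀ s, c (Finsupp.single s 1) = Additive.ofMul (cl (e s) (hep s)) := by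
    refine ⟨Finsupp.linearCombination ℤ fun s => Additive.ofMul (cl (e s) (hep s)), fun s => ?_⟩
    rw [Finsupp.linearCombination_single, one_smul]
  have cl_congr : ∀ (s t : C(Cb (p + 2), X)) (hs : ∀ y ∈ Bd (p + 2), s y = x₀)
      (ht : ∀ y ∈ Bd (p + 2), t y = x₀), s = t → cl s hs = cl t ht := by
    rintro s t hs ht rfl
    rfl
  have hD : ∀ z ∈ DCh X (p + 2), c z = 0 := by
    intro z hz
    refine Submodule.span_induction ?_ ?_ ?_ ?_ hz
    · rintro _ ⟨s, ⟨i, t, rfl⟩, rfl⟩
      rw [hc, cl_congr (e (t.comp (pr i))) (ContinuousMap.const _ x₀) _ (fun y _ => rfl) (by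
        ext y
        rw [he, h6]
        rfl), cl_const]
      rfl
    · exact map_zero c
    · intro x y _ _ hx hy
      rw [map_add, hx, hy, add_zero]
    · intro a x _ hx
      rw [map_smul, hx, smul_zero]
  have hb1 : ∀ s : C(Cb (p + 3), X), c (bd (Finsupp.single s (1 : ℤ))) = 0 := by
    intro s
    have hEE : EE x₀ (fun (i : Fin (p + 3)) b => cl (e (Fc s i (ep b))) (hep _)) := by
      have hFc : ∀ (i : Fin (p + 3)) (b : Bool), Fc ((H' s).comp
          ((ContinuousMap.id _).prodMk (ContinuousMap.const _ 1))) i (ep b) =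
          e (Fc s i (ep b)) := by
        intro i b
        ext y
        rw [he, ← h5]
        rfl
      refine ⟨(H' s).comp ((ContinuousMap.id _).prodMk (ContinuousMap.const _ 1)),
        fun i b y hy => ?_, fun i b => cl_congr _ _ _ _ (hFc i b)⟩
      rw [hFc]
      exact hep _ y hy
    have hh := hat hEE
    rw [bd_single, map_sum]
    rw [← hh]
    refine Finset.sum_congr rfl fun i _ => ?_
    rw [map_smul, map_sub, hc, hc]
    rfl
  have hbd : ∀ w : Ch X (p + 3), c (bd w) = 0 := by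
    intro w
    have h7 : c.comp (bd : Ch X (p + 3) →ₗ[ℤ] Ch X (p + 2)) = 0 := by
      refine Finsupp.lhom_ext' fun s => LinearMap.ext_ring ?_
      exact hb1 s
    exact LinearMap.congr_fun h7 w
  have hcl : c (Finsupp.single s 1) = Additive.ofMul (cl s hs) := by
    rw [hc]
    congr 1
    exact (cl_hom s (e s) hs (hep s) (H s) (h1 s) (fun y => (he s y).symm)
      (fun y hy r => h4 s hs y hy r)).symm
  obtain ⟨w, hw⟩ := hA (Finsupp.single s 1) (bd_pointed s hs)
  have h8 : c (Finsupp.single s 1 - bd w) = 0 := hD _ hw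
  rw [map_sub, hbd, sub_zero, hcl] at h8
  exact h8

end Pool.H93.HU
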