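import Pool.Agent.H93.HU.Cub

/-!
# [H93 HU CNS] Systems of homotopies of cubes

`St q x₀ H`: `H s` is a homotopy of `s`, for cubes of dimension `k < q` it ends at the constant map.
`Rl H₀ H₁`: the homotopies `H₀` (dimension `k`), `H₁` (dimension `k + 1`) are compatible with faces and degenerate cubes.

PROOFS (complete). `cons`: if `i = j` then `ep b = ep c` (`fc_same`) and `x = y` (`pr_fc`). If `i ≠ j` take `pair`: `x = fc j' (ep c) z`, `y = fc i' (ep b) z`;
by `Rl` (faces) both sides are `H₀` of the cube `s ∘ fc i (ep b) ∘ fc j' (ep c) = s ∘ fc j (ep c) ∘ fc i' (ep b)` at `(z, t)`.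
`cons_deg`: if `i = j` then `u = v` (`pr_fc`). If `i ≠ j`: with `pair`, `u = w ∘ pr j'` and `v = w ∘ pr i'` for `w = u ∘ fc j' 0 ` (evaluate `u ∘ pr i = v ∘ pr j` at suitable
points: `u y = u (pr i (fc i 0 y)) = v (pr j (fc i 0 y)) = v (fc i' 0 (pr j' y))`, so `u = w ∘ pr j'` with `w = v ∘ fc i' 0`; then `v y = v (pr j (fc j 0 y)) = u (pr i (fc j 0 y)) =
u (fc j' 0 (pr i' y)) = w (pr j' (fc j' 0 (pr i' y))) = w (pr i' y)`); then by `Rl` (degenerate cubes) both sides are `H₀ w (pr j' (pr i y), t) = H₀ w (pr i' (pr j y), t)`.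
`face_deg`: if `j = i` then `Fc (u.comp (pr i)) i e = u` (`pr_fc`). If `j ≠ i`: `pr i (fc j e y) = fc j' e (pr i' y)`; the left side is `H₁ u (fc j' e (pr i' y), t) = H₀ (Fc u j' e) (pr i' y, t)`, the right
side is `H₁ ((Fc u j' e).comp (pr i')) (y, t)`, the same.
-/

set_option autoImplicit false

namespace Pool.H93.HU

open unitInterval

variable {X : Type} [TopologicalSpace X]

/-- `H` is a system of homotopies, which contract the cubes of dimension `< q`. -/
def St (q : ℕ) (x₀ : X) {k : ℕ} (H : C(Cb k, X) → C(Cb k × I, X)) : Prop :=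
  (∀ s y, H s (y, 0) = s y) ∧ (k < q → ∀ s y, H s (y, 1) = x₀)

/-- Compatibility of the homotopies in two neighbouring dimensions. -/
def Rl {k : ℕ} (H₀ : C(Cb k, X) → C(Cb k × I, X)) (H₁ : C(Cb (k + 1), X) → C(Cb (k + 1) × I, X)) :
    Prop :=
  (∀ s i b y t, H₁ s (fc i (ep b) y, t) = H₀ (Fc s i (ep b)) (y, t)) ∧
    ∀ (s : C(Cb k, X)) i y t, H₁ (s.comp (pr i)) (y, t) = H₀ s (pr i y, t)

theorem cons {k : ℕ} {H₀ : C(Cb k, X) → C(Cb k × I, X)}
    {H₁ : C(Cb (k + 1), X) → C(Cb (k + 1) × I, X)} (hR : Rl H₀ H₁) (s : C(Cb (k + 2), X))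
    (i j : Fin (k + 2)) (b c : Bool) (x y : Cb (k + 1)) (t : I)
    (h : fc i (ep b) x = fc j (ep c) y) :
    H₁ (Fc s i (ep b)) (x, t) = H₁ (Fc s j (ep c)) (y, t) := by
  by_cases hij : i = j
  · subst hij
    have he : ep b = ep c := by
      have h1 := congrFun h i
      rw [fc_same, fc_same] at h1
      exact h1
    have hxy : x = y := by
      have h1 := congrArg (pr i) h
      rw [pr_fc, pr_fc] at h1
      exact h1
    rw [he, hxy]
  · obtain ⟨i', j', p1, p2, p3, p4, p5⟩ := pair i j hij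
    obtain ⟨hx, hy⟩ := p5 (ep b) (ep c) x y h
    have hF : Fc (Fc s i (ep b)) j' (ep c) = Fc (Fc s j (ep c)) i' (ep b) := by
      ext w
      change s (fc i (ep b) (fc j' (ep c) w)) = s (fc j (ep c) (fc i' (ep b) w))
      rw [p1]
    calc H₁ (Fc s i (ep b)) (x, t)
        = H₁ (Fc s i (ep b)) (fc j' (ep c) (pr i' y), t) := by rw [← hx]
      _ = H₀ (Fc (Fc s i (ep b)) j' (ep c)) (pr i' y, t) := hR.1 _ _ _ _ _
      _ = H₀ (Fc (Fc s j (ep c)) i' (ep b)) (pr i' y, t) := by rw [hF]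
      _ = H₁ (Fc s j (ep c)) (fc i' (ep b) (pr i' y), t) := (hR.1 _ _ _ _ _).symm
      _ = H₁ (Fc s j (ep c)) (y, t) := by rw [← hy]

theorem cons_deg {k : ℕ} {H₀ : C(Cb k, X) → C(Cb k × I, X)}
    {H₁ : C(Cb (k + 1), X) → C(Cb (k + 1) × I, X)} (hR : Rl H₀ H₁) (u v : C(Cb (k + 1), X))
    (i j : Fin (k + 2)) (h : u.comp (pr i) = v.comp (pr j)) (y : Cb (k + 2)) (t : I) :
    H₁ u (pr i y, t) = H₁ v (pr j y, t) := by
  have hE : ∀ z : Cb (k + 2), u (pr i z) = v (pr j z) := fun z => by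
    have h1 := congrArg (fun f : C(Cb (k + 2), X) => f z) h
    exact h1
  by_cases hij : i = j
  · subst hij
    have huv : u = v := by
      ext z
      have h1 := hE (fc i 0 z)
      rw [pr_fc] at h1
      exact h1
    rw [huv]
  · obtain ⟨i', j', p1, p2, p3, p4, p5⟩ := pair i j hij
    have hu : u = (v.comp (fc i' 0)).comp (pr j') := by
      ext z
      have h1 := hE (fc i 0 z)
      rw [pr_fc, p3] at h1
      exact h1
    have hv : v = (v.comp (fc i' 0)).comp (pr i') := by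
      ext z
      have h1 := hE (fc j 0 z)
      rw [pr_fc, p2] at h1
      rw [← h1, hu]
      change v (fc i' 0 (pr j' (fc j' 0 (pr i' z)))) = _
      rw [pr_fc]
      rfl
    have h2 := hR.2 (v.comp (fc i' 0)) j' (pr i y) t
    have h3 := hR.2 (v.comp (fc i' 0)) i' (pr j y) t
    rw [← hu] at h2
    rw [← hv] at h3
    rw [h2, h3, p4]

theorem face_deg {k : ℕ} {H₀ : C(Cb k, X) → C(Cb k × I, X)}
    {H₁ : C(Cb (k + 1), X) → C(Cb (k + 1) × I, X)} (hR : Rl H₀ H₁) (u : C(Cb (k + 1), X))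
    (i j : Fin (k + 2)) (b : Bool) (y : Cb (k + 1)) (t : I) :
    H₁ u (pr i (fc j (ep b) y), t) = H₁ (Fc (u.comp (pr i)) j (ep b)) (y, t) := by
  by_cases hij : i = j
  · subst hij
    have hF : Fc (u.comp (pr i)) i (ep b) = u := by
      ext z
      change u (pr i (fc i (ep b) z)) = u z
      rw [pr_fc]
    rw [hF, pr_fc]
  · obtain ⟨i', j', p1, p2, p3, p4, p5⟩ := pair i j hij
    have hF : Fc (u.comp (pr i)) j (ep b) = (Fc u j' (ep b)).comp (pr i') := by
      ext z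
      change u (pr i (fc j (ep b) z)) = u (fc j' (ep b) (pr i' z))
      rw [p2]
    rw [hF, p2, hR.1, hR.2]

end Pool.H93.HU
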