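import Pool.Agent.H93.HU.Cls

/-!
# [H93 HU MOV] The move

PROOF (complete). Write `k = i.castSucc`, `k' = i.succ` (adjacent coordinates of `Cb (p + 3)`), `m (x) = max (2 x - 1) 0` on `I`. Let `κ : Cb (p + 3) → Cb (p + 3)`
replace `x_k` by `m x_k` and `x_k'` by `m x_k'`; it maps every face into itself. Let `s` have pointed faces. Put
`s' x = u (z)` if `x_k ≤ 1/2` and `x_k' ≤ 1/2`, where `z = pr k' x` with the coordinate `i` (that is the coordinate `x_k`) replaced by
`projIcc (2 max (x_k, x_k'))` (so `z` has the coordinates `x_l`, `l ≠ k, k'`, and `2 max (x_k, x_k')` at place `i`); `s' x = s (κ x)` otherwise.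
Continuous: both sets are closed; on the intersection `max (x_k, x_k') = 1/2`, so `z_i = 1` and `u z = x₀`, and `κ x` has
`x_k = x_k' = 0` in the closed corner, i.e. `κ x = fc k 0 (..)` with a boundary point inside, so `s (κ x) = x₀` (`FP`). (On the closed complement of the open
corner use `s ∘ κ`.)
Faces (`Fc s' j (ep b)`), `y : Cb (p + 2)`:
* `j = k`, `b = false`: for `y_i = x_k' ≤ 1/2` it is `u (update y i (2 y_i))`, otherwise `s (fc k 0 (update y i (2 y_i - 1)))`: exactly the situation of `cl_mul` with
  `s := u`, `t := Fc s k 0`; so the class is `old * cl u`. The same for `j = k'`, `b = false` (there `y_i = x_k`; `fc k' 0`).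
* `j = k`, `b = true`: `x_k = 1`, so it is `Fc s k 1 (update y i (m (y_i)))`; `cl_comp` with `θ (y, r) = update y i ((1 - r) y_i + r m (y_i))` (convex combination; it maps
  `0` to `0` and `1` to `1`, so the boundary to the boundary). The same for `k'`.
* `j ≠ k, k'`: `x_j = ep b`. If `x` is in the corner then `z` has a coordinate `ep b`, so `u z = x₀`, and also `s (κ x) = x₀`; so `Fc s' j (ep b) = Fc s j (ep b) ∘ κ_j`
  where `κ_j` applies `m` to the two coordinates corresponding to `k`, `k'`: `cl_comp` with the convex combination in these two coordinates.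
All faces are pointed (the same computations).
-/

set_option autoImplicit false

namespace Pool.H93.HU

open unitInterval

variable {X : Type} [TopologicalSpace X] {x₀ : X}

private theorem mov_upd_fc {n : ℕ} (i : Fin (n + 1)) (e e' : I) (y : Cb n) :
    Function.update (fc i e y) i e' = fc i e' y := by
  funext j
  refine i.succAboveCases ?_ (fun l => ?_) j
  · rw [Function.update_self, fc_same]
  · rw [Function.update_of_ne (Fin.succAbove_ne i l), fc_succAbove, fc_succAbove]

private theorem mov_upd_fc_succ {n : ℕ} (i : Fin (n + 1)) (e : I) (l : Fin n) (v : I)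
    (y : Cb n) :
    Function.update (fc i e y) (i.succAbove l) v = fc i e (Function.update y l v) := by
  funext j
  refine i.succAboveCases ?_ (fun l' => ?_) j
  · rw [Function.update_of_ne (Fin.succAbove_ne i l).symm, fc_same, fc_same]
  · rw [fc_succAbove]
    by_cases h : l' = l
    · subst h
      rw [Function.update_self, Function.update_self]
    · rw [Function.update_of_ne (fun hh => h (Fin.succAbove_right_injective hh)),
        Function.update_of_ne h, fc_succAbove]

private theorem mov_upd_mem {n : ℕ} {y : Cb n} (hy : y ∈ Bd n) (i : Fin n) (g : I → I)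
    (h0 : g 0 = 0) (h1 : g 1 = 1) : Function.update y i (g (y i)) ∈ Bd n := by
  obtain ⟨l, hl⟩ := hy
  refine ⟨l, ?_⟩
  by_cases h : l = i
  · subst h
    rw [Function.update_self]
    rcases hl with hl | hl
    · left
      rw [hl, h0]
    · right
      rw [hl, h1]
  · rw [Function.update_of_ne h]
    exact hl

private theorem mov_upd_mem2 {n : ℕ} {y : Cb n} (hy : y ∈ Bd n) (i j : Fin n) (hij : i ≠ j)
    (g : I → I) (h0 : g 0 = 0) (h1 : g 1 = 1) :
    Function.update (Function.update y i (g (y i))) j (g (y j)) ∈ Bd n := by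
  have h := mov_upd_mem (mov_upd_mem hy i g h0 h1) j g h0 h1
  rw [Function.update_of_ne hij.symm] at h
  exact h

/-- `t ↦ max (2 t - 1) 0` -/
private noncomputable def mm (t : I) : I := Set.projIcc 0 1 zero_le_one (2 * (t : ℝ) - 1)

/-- `t ↦ min (2 t) 1` -/
private noncomputable def dd (t : I) : I := Set.projIcc 0 1 zero_le_one (2 * (t : ℝ))

/-- homotopy from the identity to `mm` -/
private noncomputable def hh (r t : I) : I :=
  Set.projIcc 0 1 zero_le_one ((1 + (r : ℝ)) * (t : ℝ) - r)

private theorem continuous_mm : Continuous mm := by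
  unfold mm
  exact continuous_projIcc.comp (by fun_prop)

private theorem continuous_dd : Continuous dd := by
  unfold dd
  exact continuous_projIcc.comp (by fun_prop)

private theorem continuous_hh : Continuous fun z : I × I => hh z.1 z.2 := by
  unfold hh
  exact continuous_projIcc.comp (by fun_prop)

private theorem proj_le {x : ℝ} (h : x ≤ 0) : (Set.projIcc 0 1 zero_le_one x : I) = 0 :=
  Set.projIcc_of_le_left zero_le_one h

private theorem proj_ge {x : ℝ} (h : 1 ≤ x) : (Set.projIcc 0 1 zero_le_one x : I) = 1 :=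
  Set.projIcc_of_right_le zero_le_one h

private theorem mm_le {t : I} (h : (t : ℝ) ≤ 1 / 2) : mm t = 0 :=
  proj_le (by linarith)

private theorem mm_zero : mm 0 = 0 := mm_le (by rw [Set.Icc.coe_zero]; norm_num)

private theorem mm_one : mm 1 = 1 := proj_ge (by rw [Set.Icc.coe_one]; norm_num)

private theorem dd_ge {t : I} (h : 1 / 2 ≤ (t : ℝ)) : dd t = 1 :=
  proj_ge (by linarith)

private theorem dd_zero : dd 0 = 0 := proj_le (by rw [Set.Icc.coe_zero]; norm_num)

private theorem dd_one : dd 1 = 1 := dd_ge (by rw [Set.Icc.coe_one]; norm_num)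

private theorem hh_zero (t : I) : hh 0 t = t := by
  unfold hh
  have h : (1 + ((0 : I) : ℝ)) * (t : ℝ) - ((0 : I) : ℝ) = t := by
    rw [Set.Icc.coe_zero]
    ring
  rw [h]
  exact Set.projIcc_val zero_le_one t

private theorem hh_one (t : I) : hh 1 t = mm t := by
  unfold hh mm
  have h : (1 + ((1 : I) : ℝ)) * (t : ℝ) - ((1 : I) : ℝ) = 2 * t - 1 := by
    rw [Set.Icc.coe_one]
    ring
  rw [h]

private theorem hh_left (r : I) : hh r 0 = 0 :=
  proj_le (by
    rw [Set.Icc.coe_zero]
    have := r.2.1
    linarith)

private theorem hh_right (r : I) : hh r 1 = 1 :=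
  proj_ge (by
    rw [Set.Icc.coe_one]
    linarith)

theorem EE.move {p : ℕ} {a : Fin (p + 3) → Bool → HomotopyGroup (Fin (p + 2)) X x₀}
    (ha : EE x₀ a) (i : Fin (p + 2)) (u : HomotopyGroup (Fin (p + 2)) X x₀) :
    EE x₀ (fun j b => a j b * if b = false ∧ (j = i.castSucc ∨ j = i.succ) then u else 1) := by
  obtain ⟨s, hs, ha⟩ := ha
  obtain ⟨v, hv, rfl⟩ := cl_surj u
  obtain ⟨k, hk⟩ : ∃ k : Fin (p + 3), k = i.castSucc := ⟨_, rfl⟩
  obtain ⟨k', hk'⟩ : ∃ k' : Fin (p + 3), k' = i.succ := ⟨_, rfl⟩
  rw [← hk, ← hk']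
  have hkk : k ≠ k' := by
    rw [hk, hk']
    exact (Fin.castSucc_lt_succ (i := i)).ne
  have hs1 : k.succAbove i = k' := by
    rw [hk, hk']
    exact Fin.succAbove_castSucc_self i
  have hs2 : k'.succAbove i = k := by
    rw [hk, hk']
    exact Fin.succAbove_succ_self i
  have hs3 : ∀ l : Fin (p + 2), l ≠ i → k'.succAbove l = k.succAbove l := by
    intro l hl
    rw [hk, hk']
    rcases lt_or_gt_of_ne hl with h | h
    · rw [Fin.succAbove_succ_of_le _ _ h.le, Fin.succAbove_castSucc_of_lt _ _ h]
    · rw [Fin.succAbove_succ_of_lt _ _ h, Fin.succAbove_castSucc_of_le _ _ h.le]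
  obtain ⟨mx, hmx⟩ : ∃ mx : Cb (p + 3) → I, mx = fun x => max (x k) (x k') := ⟨_, rfl⟩
  have hmxc : Continuous mx := by
    rw [hmx]
    exact (continuous_apply k).max (continuous_apply k')
  obtain ⟨κ, hκ⟩ : ∃ κ : Cb (p + 3) → Cb (p + 3),
      κ = fun x => Function.update (Function.update x k (mm (x k))) k' (mm (x k')) := ⟨_, rfl⟩
  have hκc : Continuous κ := by
    rw [hκ]
    exact (continuous_id.update k (continuous_mm.comp (continuous_apply k))).update k'
      (continuous_mm.comp (continuous_apply k'))
  obtain ⟨z, hz⟩ : ∃ z : Cb (p + 3) → Cb (p + 2),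
      z = fun x => Function.update (pr k' x) i (dd (mx x)) := ⟨_, rfl⟩
  have hzc : Continuous z := by
    rw [hz]
    exact (pr k').continuous.update i (continuous_dd.comp hmxc)
  have P1 : ∀ x, ((mx x : I) : ℝ) ≤ 1 / 2 → s (κ x) = x₀ := by
    intro x hx
    have hx1 : (x k : ℝ) ≤ 1 / 2 := by
      refine le_trans ?_ hx
      rw [hmx]
      exact Subtype.coe_le_coe.2 (le_max_left _ _)
    have hx2 : (x k' : ℝ) ≤ 1 / 2 := by
      refine le_trans ?_ hx
      rw [hmx]
      exact Subtype.coe_le_coe.2 (le_max_right _ _)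
    have e1 : κ x k = 0 := by
      rw [hκ]
      show Function.update (Function.update x k (mm (x k))) k' (mm (x k')) k = 0
      rw [Function.update_of_ne hkk, Function.update_self, mm_le hx1]
    have e2 : κ x k' = 0 := by
      rw [hκ]
      show Function.update (Function.update x k (mm (x k))) k' (mm (x k')) k' = 0
      rw [Function.update_self, mm_le hx2]
    have e3 := fc_pr k (κ x)
    rw [e1] at e3
    have e4 : pr k (κ x) ∈ Bd (p + 2) := by
      refine ⟨i, Or.inl ?_⟩
      rw [pr_apply, hs1, e2]
    have e5 := hs k false _ e4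
    rw [← e3]
    exact e5
  have P2 : ∀ x, 1 / 2 ≤ ((mx x : I) : ℝ) → v (z x) = x₀ := by
    intro x hx
    apply hv
    refine ⟨i, Or.inr ?_⟩
    rw [hz]
    show Function.update (pr k' x) i (dd (mx x)) i = 1
    rw [Function.update_self, dd_ge hx]
  have hcont : Continuous fun x : Cb (p + 3) =>
      if ((mx x : I) : ℝ) ≤ 1 / 2 then v (z x) else s (κ x) := by
    refine Continuous.if_le (v.continuous.comp hzc) (s.continuous.comp hκc)
      (continuous_subtype_val.comp hmxc) continuous_const ?_
    intro x hx
    rw [P1 x hx.le, P2 x hx.ge]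
  let s' : C(Cb (p + 3), X) := ⟨_, hcont⟩
  have S1 : ∀ x, ((mx x : I) : ℝ) ≤ 1 / 2 → s' x = v (z x) := fun x hx => if_pos hx
  have S2 : ∀ x, 1 / 2 < ((mx x : I) : ℝ) → s' x = s (κ x) := fun x hx => if_neg (not_le.2 hx)
  -- the faces
  have mk0 : ∀ y, mx (fc k 0 y) = y i := by
    intro y
    rw [hmx]
    show max (fc k 0 y k) (fc k 0 y k') = y i
    rw [fc_same, ← hs1, fc_succAbove]
    exact max_eq_right (nonneg' (t := y i))
  have mk0' : ∀ y, mx (fc k' 0 y) = y i := by
    intro y
    rw [hmx]
    show max (fc k' 0 y k) (fc k' 0 y k') = y i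
    rw [fc_same, ← hs2, fc_succAbove]
    exact max_eq_left (nonneg' (t := y i))
  have mk1 : ∀ y, mx (fc k 1 y) = 1 := by
    intro y
    rw [hmx]
    show max (fc k 1 y k) (fc k 1 y k') = 1
    rw [fc_same]
    exact max_eq_left (le_one' (t := fc k 1 y k'))
  have mk1' : ∀ y, mx (fc k' 1 y) = 1 := by
    intro y
    rw [hmx]
    show max (fc k' 1 y k) (fc k' 1 y k') = 1
    rw [fc_same]
    exact max_eq_right (le_one' (t := fc k' 1 y k))
  have hhalf : (1 : ℝ) / 2 < ((1 : I) : ℝ) := by
    rw [Set.Icc.coe_one]
    norm_num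
  have κk : ∀ (e : I) (y : Cb (p + 2)), mm e = e →
      κ (fc k e y) = fc k e (Function.update y i (mm (y i))) := by
    intro e y he
    rw [hκ]
    show Function.update (Function.update (fc k e y) k (mm (fc k e y k))) k'
      (mm (fc k e y k')) = fc k e (Function.update y i (mm (y i)))
    rw [fc_same, he, mov_upd_fc, ← hs1, fc_succAbove, mov_upd_fc_succ]
  have κk' : ∀ (e : I) (y : Cb (p + 2)), mm e = e →
      κ (fc k' e y) = fc k' e (Function.update y i (mm (y i))) := by
    intro e y he
    rw [hκ]
    show Function.update (Function.update (fc k' e y) k (mm (fc k' e y k))) k'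
      (mm (fc k' e y k')) = fc k' e (Function.update y i (mm (y i)))
    rw [fc_same, he, ← hs2, fc_succAbove, mov_upd_fc_succ, mov_upd_fc]
  have zk : ∀ y : Cb (p + 2), z (fc k 0 y) = Function.update y i (dd (y i)) := by
    intro y
    rw [hz]
    show Function.update (pr k' (fc k 0 y)) i (dd (mx (fc k 0 y))) = Function.update y i (dd (y i))
    rw [mk0]
    funext l
    by_cases hl : l = i
    · subst hl
      rw [Function.update_self, Function.update_self]
    · rw [Function.update_of_ne hl, Function.update_of_ne hl, pr_apply, hs3 l hl, fc_succAbove]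
  have zk' : ∀ y : Cb (p + 2), z (fc k' 0 y) = Function.update y i (dd (y i)) := by
    intro y
    rw [hz]
    show Function.update (pr k' (fc k' 0 y)) i (dd (mx (fc k' 0 y))) =
      Function.update y i (dd (y i))
    rw [mk0', pr_fc]
  have A1 : ∀ y : Cb (p + 2), (y i : ℝ) ≤ 1 / 2 →
      Fc s' k (ep false) y = v (Function.update y i (dd (y i))) := by
    intro y hy
    show s' (fc k 0 y) = _
    rw [S1 _ (by rw [mk0]; exact hy), zk]
  have A2 : ∀ y : Cb (p + 2), 1 / 2 < (y i : ℝ) →
      Fc s' k (ep false) y = Fc s k (ep false) (Function.update y i (mm (y i))) := by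
    intro y hy
    show s' (fc k 0 y) = s (fc k 0 (Function.update y i (mm (y i))))
    rw [S2 _ (by rw [mk0]; exact hy), κk 0 y mm_zero]
  have B1 : ∀ y : Cb (p + 2), (y i : ℝ) ≤ 1 / 2 →
      Fc s' k' (ep false) y = v (Function.update y i (dd (y i))) := by
    intro y hy
    show s' (fc k' 0 y) = _
    rw [S1 _ (by rw [mk0']; exact hy), zk']
  have B2 : ∀ y : Cb (p + 2), 1 / 2 < (y i : ℝ) →
      Fc s' k' (ep false) y = Fc s k' (ep false) (Function.update y i (mm (y i))) := by
    intro y hy
    show s' (fc k' 0 y) = s (fc k' 0 (Function.update y i (mm (y i))))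
    rw [S2 _ (by rw [mk0']; exact hy), κk' 0 y mm_zero]
  have A3 : ∀ y : Cb (p + 2),
      Fc s' k (ep true) y = Fc s k (ep true) (Function.update y i (mm (y i))) := by
    intro y
    show s' (fc k 1 y) = s (fc k 1 (Function.update y i (mm (y i))))
    rw [S2 _ (by rw [mk1]; exact hhalf), κk 1 y mm_one]
  have B3 : ∀ y : Cb (p + 2),
      Fc s' k' (ep true) y = Fc s k' (ep true) (Function.update y i (mm (y i))) := by
    intro y
    show s' (fc k' 1 y) = s (fc k' 1 (Function.update y i (mm (y i))))
    rw [S2 _ (by rw [mk1']; exact hhalf), κk' 1 y mm_one]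
  have D : ∀ (j : Fin (p + 3)), j ≠ k → j ≠ k' → ∀ (b : Bool) (l l' : Fin (p + 2)),
      j.succAbove l = k → j.succAbove l' = k' → ∀ y, Fc s' j (ep b) y =
        Fc s j (ep b) (Function.update (Function.update y l (mm (y l))) l' (mm (y l'))) := by
    intro j hjk hjk' b l l' hl hl' y
    have hκj : κ (fc j (ep b) y) =
        fc j (ep b) (Function.update (Function.update y l (mm (y l))) l' (mm (y l'))) := by
      rw [hκ]
      show Function.update (Function.update (fc j (ep b) y) k (mm (fc j (ep b) y k))) k'
        (mm (fc j (ep b) y k')) = _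
      rw [← hl, ← hl', fc_succAbove, fc_succAbove, mov_upd_fc_succ, mov_upd_fc_succ]
    have hval : s' (fc j (ep b) y) = s (κ (fc j (ep b) y)) := by
      by_cases hx : ((mx (fc j (ep b) y) : I) : ℝ) ≤ 1 / 2
      · rw [S1 _ hx, P1 _ hx]
        apply hv
        obtain ⟨j', hj'⟩ := Fin.exists_succAbove_eq (x := j) (y := k') hjk'
        have hj'i : j' ≠ i := by
          rintro rfl
          exact hjk (hj'.symm.trans hs2)
        have hzj : z (fc j (ep b) y) j' = ep b := by
          rw [hz]
          show Function.update (pr k' (fc j (ep b) y)) i (dd (mx (fc j (ep b) y))) j' = ep b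
          rw [Function.update_of_ne hj'i, pr_apply, hj', fc_same]
        refine ⟨j', ?_⟩
        rw [hzj]
        cases b
        · left
          rfl
        · right
          rfl
      · exact S2 _ (not_le.1 hx)
    show s' (fc j (ep b) y) = s (fc j (ep b) _)
    rw [hval, hκj]
  have hFP : FP x₀ s' := by
    intro j b y hy
    by_cases hjk : j = k
    · subst hjk
      cases b
      · rcases le_or_gt (y i : ℝ) (1 / 2) with h | h
        · rw [A1 y h]
          exact hv _ (mov_upd_mem hy i dd dd_zero dd_one)
        · rw [A2 y h]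
          exact hs j false _ (mov_upd_mem hy i mm mm_zero mm_one)
      · rw [A3 y]
        exact hs j true _ (mov_upd_mem hy i mm mm_zero mm_one)
    · by_cases hjk' : j = k'
      · subst hjk'
        cases b
        · rcases le_or_gt (y i : ℝ) (1 / 2) with h | h
          · rw [B1 y h]
            exact hv _ (mov_upd_mem hy i dd dd_zero dd_one)
          · rw [B2 y h]
            exact hs j false _ (mov_upd_mem hy i mm mm_zero mm_one)
        · rw [B3 y]
          exact hs j true _ (mov_upd_mem hy i mm mm_zero mm_one)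
      · obtain ⟨l, hl⟩ := Fin.exists_succAbove_eq (x := k) (y := j) (Ne.symm hjk)
        obtain ⟨l', hl'⟩ := Fin.exists_succAbove_eq (x := k') (y := j) (Ne.symm hjk')
        have hll : l ≠ l' := by
          rintro rfl
          exact hkk (hl.symm.trans hl')
        rw [D j hjk hjk' b l l' hl hl' y]
        exact hs j b _ (mov_upd_mem2 hy l l' hll mm mm_zero mm_one)
  let θ1 : C(Cb (p + 2) × I, Cb (p + 2)) :=
    ⟨fun w => Function.update w.1 i (hh w.2 (w.1 i)),
      continuous_fst.update i (continuous_hh.comp
        (continuous_snd.prodMk ((continuous_apply i).comp continuous_fst)))⟩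
  have T1 : ∀ (j : Fin (p + 3)) (b : Bool), (∀ y : Cb (p + 2),
      Fc s' j (ep b) y = Fc s j (ep b) (Function.update y i (mm (y i)))) →
      cl (Fc s' j (ep b)) (hFP j b) = cl (Fc s j (ep b)) (hs j b) := by
    intro j b h
    refine cl_comp _ _ _ _ θ1 ?_ ?_ ?_
    · intro y
      show Function.update y i (hh 0 (y i)) = y
      rw [hh_zero, Function.update_eq_self]
    · intro y hy r
      exact mov_upd_mem hy i (hh r) (hh_left r) (hh_right r)
    · intro y
      rw [h y]
      show _ = Fc s j (ep b) (Function.update y i (hh 1 (y i)))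
      rw [hh_one]
  refine ⟨s', hFP, fun j b => ?_⟩
  show cl (Fc s' j (ep b)) (hFP j b) =
    a j b * if b = false ∧ (j = k ∨ j = k') then cl v hv else 1
  by_cases hjk : j = k
  · subst hjk
    cases b
    · rw [if_pos ⟨rfl, Or.inl rfl⟩, ← ha j false]
      exact cl_mul i v (Fc s j (ep false)) _ hv (hs j false) _ A1 A2
    · rw [if_neg (by rintro ⟨h, -⟩; exact Bool.noConfusion h), mul_one, ← ha j true]
      exact T1 j true A3
  · by_cases hjk' : j = k'
    · subst hjk'
      cases b
      · rw [if_pos ⟨rfl, Or.inr rfl⟩, ← ha j false]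
        exact cl_mul i v (Fc s j (ep false)) _ hv (hs j false) _ B1 B2
      · rw [if_neg (by rintro ⟨h, -⟩; exact Bool.noConfusion h), mul_one, ← ha j true]
        exact T1 j true B3
    · rw [if_neg (by rintro ⟨-, h | h⟩; exacts [hjk h, hjk' h]), mul_one, ← ha j b]
      obtain ⟨l, hl⟩ := Fin.exists_succAbove_eq (x := k) (y := j) (Ne.symm hjk)
      obtain ⟨l', hl'⟩ := Fin.exists_succAbove_eq (x := k') (y := j) (Ne.symm hjk')
      have hll : l ≠ l' := by
        rintro rfl
        exact hkk (hl.symm.trans hl')
      let θ2 : C(Cb (p + 2) × I, Cb (p + 2)) :=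
        ⟨fun w => Function.update (Function.update w.1 l (hh w.2 (w.1 l))) l' (hh w.2 (w.1 l')),
          (continuous_fst.update l (continuous_hh.comp
            (continuous_snd.prodMk ((continuous_apply l).comp continuous_fst)))).update l'
            (continuous_hh.comp
              (continuous_snd.prodMk ((continuous_apply l').comp continuous_fst)))⟩
      refine cl_comp _ _ _ _ θ2 ?_ ?_ ?_
      · intro y
        show Function.update (Function.update y l (hh 0 (y l))) l' (hh 0 (y l')) = y
        rw [hh_zero, hh_zero, Function.update_eq_self, Function.update_eq_self]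
      · intro y hy r
        exact mov_upd_mem2 hy l l' hll (hh r) (hh_left r) (hh_right r)
      · intro y
        rw [D j hjk hjk' b l l' hl hl' y]
        show _ = Fc s j (ep b)
          (Function.update (Function.update y l (hh 1 (y l))) l' (hh 1 (y l')))
        rw [hh_one, hh_one]

end Pool.H93.HU
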