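import Pool.Agent.H93.HU.Cns
import Pool.Agent.H93.HU.Ret

/-!
# [H93 HU STE] The systems of homotopies: the step

PROOF (complete). Let `s : C(Cb (k + 2), X)`. If `s` is degenerate choose `i`, `u` with `s = u.comp (pr i)` and put `H₂ s (y, t) = H₁ u (pr i y, t)`; by `cons_deg` it does not depend
on the choice (this gives the second part of `Rl`), the faces are right by `face_deg`, `H₂ s (y, 0) = u (pr i y) = s y`, and for `k + 2 < q` the end is `x₀`.
Otherwise let `h` be the function of `glue` for `g i b = H₁ (Fc s i (ep b))` (`cons`), `h (y, 0) = s y` for `y` in the boundary (`mem_Bd`). If `k + 2 < q` use `cyl` with `b = s`,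
`c = const x₀` (`Fil X (k + 2)`; `h (y, 1) = x₀` since `k + 1 < q`), if `q ≤ k + 2` use `hep`. All these choices by `Classical` (first prove: for every `s` there is `K : C(Cb (k + 2) × I, X)` with
`K (y, 0) = s y`, `k + 2 < q → K (y, 1) = x₀`, `K (fc i (ep b) y, t) = H₁ (Fc s i (ep b)) (y, t)`, and `∀ u i, s = u.comp (pr i) → ∀ y t, K (y, t) = H₁ u (pr i y, t)`; then `choose`).
-/

set_option autoImplicit false

namespace Pool.H93.HU

open unitInterval

variable {X : Type} [TopologicalSpace X]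

private theorem stepOne {q k : ℕ} {x₀ : X} (hF : k + 2 < q → Fil X (k + 2))
    {H₀ : C(Cb k, X) → C(Cb k × I, X)} {H₁ : C(Cb (k + 1), X) → C(Cb (k + 1) × I, X)}
    (h1 : St q x₀ H₁) (hR : Rl H₀ H₁) (s : C(Cb (k + 2), X)) :
    ∃ K : C(Cb (k + 2) × I, X), (∀ y, K (y, 0) = s y) ∧ (k + 2 < q → ∀ y, K (y, 1) = x₀) ∧
      (∀ i b y t, K (fc i (ep b) y, t) = H₁ (Fc s i (ep b)) (y, t)) ∧
      ∀ (u : C(Cb (k + 1), X)) i, s = u.comp (pr i) → ∀ y t, K (y, t) = H₁ u (pr i y, t) := by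
  classical
  by_cases hdeg : ∃ (u : C(Cb (k + 1), X)) (i : Fin (k + 2)), s = u.comp (pr i)
  · obtain ⟨u, i, rfl⟩ := hdeg
    refine ⟨(H₁ u).comp ⟨fun z : Cb (k + 2) × I => (pr i z.1, z.2),
      ((pr i).continuous.comp continuous_fst).prodMk continuous_snd⟩, ?_, ?_, ?_, ?_⟩
    · intro y
      exact h1.1 u (pr i y)
    · intro hq y
      exact h1.2 (by omega) u (pr i y)
    · intro j b y t
      exact face_deg hR u i j b y t
    · intro v j h y t
      exact cons_deg hR u v i j h y t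
  · obtain ⟨h, hc, hh⟩ := glue (n := k + 1) (T := I) (fun i b => H₁ (Fc s i (ep b)))
      (fun i j b c x y t hxy => cons hR s i j b c x y t hxy)
    have h0 : ∀ y ∈ Bd (k + 2), h (y, 0) = s y := by
      intro y hy
      obtain ⟨i, b, x, rfl⟩ := mem_Bd.1 hy
      rw [hh, h1.1]
      rfl
    by_cases hq : k + 2 < q
    · have h1' : ∀ y ∈ Bd (k + 2), h (y, 1) = ContinuousMap.const (Cb (k + 2)) x₀ y := by
        intro y hy
        obtain ⟨i, b, x, rfl⟩ := mem_Bd.1 hy
        rw [hh, h1.2 (by omega)]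
        rfl
      obtain ⟨K, hK0, hK1, hK⟩ := cyl (hF hq) s (ContinuousMap.const _ x₀) h hc h0 h1'
      refine ⟨K, hK0, fun _ y => hK1 y, ?_, ?_⟩
      · intro i b y t
        rw [hK _ (fc_mem i b y), hh]
      · intro u i hu
        exact absurd ⟨u, i, hu⟩ hdeg
    · obtain ⟨K, hK0, hK⟩ := hep s h hc h0
      refine ⟨K, hK0, fun hq' => absurd hq' hq, ?_, ?_⟩
      · intro i b y t
        rw [hK _ (fc_mem i b y), hh]
      · intro u i hu
        exact absurd ⟨u, i, hu⟩ hdeg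

theorem step {q k : ℕ} {x₀ : X} (hF : k + 2 < q → Fil X (k + 2))
    {H₀ : C(Cb k, X) → C(Cb k × I, X)} {H₁ : C(Cb (k + 1), X) → C(Cb (k + 1) × I, X)}
    (h1 : St q x₀ H₁) (hR : Rl H₀ H₁) :
    ∃ H₂ : C(Cb (k + 2), X) → C(Cb (k + 2) × I, X), St q x₀ H₂ ∧ Rl H₁ H₂ := by
  choose H₂ ha hb hc hd using fun s => stepOne hF h1 hR s
  exact ⟨H₂, ⟨ha, fun hq s y => hb s hq y⟩, hc, fun s i y t => hd _ s i rfl y t⟩

end Pool.H93.HU
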